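import Pool.Agent.Lib.MP_b07157_agSS.A
import Pool.Agent.Lib.MP_b07157_agI.SqM
import Pool.Agent.Lib.MP_b07157_agCR.R2

/-!
# Suspensions of smooth cubic forms
-/

noncomputable section

namespace MPb07157

open MvPolynomial

namespace SS

variable {n r : ℕ}

/-- **Suspensions of forms with an isolated critical point**: `SmcLoc.of_sqh` (agI/SqM) with the weights
`sw (fun _ => 1) d e` (agSS/A) and the degree `d * ∏ e_i`: `sg c e` is weighted homogeneous, so it is its
own initial part (`CR.R2.initialPart_eq_of_split` with `Q = 0`, agCR/R2); critical points of `sg c e`: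
`eval_pderiv_natAdd` gives `x (Fin.natAdd n i) = 0`, then `eval_pderiv_castAdd`. -/
theorem smcLoc_smooth_form {c : MvPolynomial (Fin n) ℂ} {d : ℕ} (hd : 0 < d)
    (hc : c.IsHomogeneous d)
    (hs : ∀ p : Fin n → ℂ, p ≠ 0 → ∃ i, eval p (pderiv i c) ≠ 0) {e : Fin r → ℕ}
    (he : ∀ i, 2 ≤ e i) (hne : sg c e ≠ 0) (h0 : coeff 0 (sg c e) = 0) : SmcLoc (sg c e) := by
  classical
  have he0 : ∀ i, 0 < e i := fun i => by have := he i; omega
  have hL : 0 < ∏ i, e i := Finset.prod_pos fun i _ => he0 i
  have hdiv : ∀ i, e i * ((∏ j, e j) / e i) = ∏ j, e j := fun i =>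
    Nat.mul_div_cancel' (Finset.dvd_prod_of_mem e (Finset.mem_univ i))
  have hw : ∀ j, 0 < sw (fun _ : Fin n => 1) d e j := by
    intro j
    refine Fin.addCases (fun j => ?_) (fun i => ?_) j
    · unfold sw
      rw [Fin.append_left, one_mul]
      exact hL
    · unfold sw
      rw [Fin.append_right]
      refine Nat.mul_pos hd ?_
      rcases Nat.eq_zero_or_pos ((∏ j, e j) / e i) with h | h
      · have h1 := hdiv i
        rw [h, mul_zero] at h1
        omega
      · exact h
  have hP : ∀ v ∈ (sg c e).support, ∑ j, sw (fun _ : Fin n => 1) d e j * v j = d * ∏ i, e i := by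
    intro v hv
    unfold sg at hv
    rcases Finset.mem_union.1 (support_add hv) with h1 | h1
    · rw [support_rename_of_injective (Fin.castAdd_injective n r), Finset.mem_image] at h1
      obtain ⟨u, hu, rfl⟩ := h1
      rw [weight_mapDomain, mul_comm d]
      congr 1
      have h2 := hc (mem_support_iff.1 hu)
      rw [Finsupp.weight_apply, Finsupp.sum_fintype _ _ fun _ => by simp] at h2
      rw [← h2]
      refine Finset.sum_congr rfl fun j _ => ?_
      rw [smul_eq_mul, mul_comm]
      rfl
    · rw [mem_support_iff, coeff_sum] at h1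
      obtain ⟨i, _, hi⟩ := Finset.exists_ne_zero_of_sum_ne_zero h1
      rw [coeff_X_pow] at hi
      have hvi : Finsupp.single (Fin.natAdd n i) (e i) = v := by
        by_contra hcon
        rw [if_neg hcon] at hi
        exact hi rfl
      rw [← hvi, Finset.sum_eq_single (Fin.natAdd n i)]
      · rw [Finsupp.single_eq_same]
        unfold sw
        rw [Fin.append_right]
        have h3 := hdiv i
        calc d * ((∏ j, e j) / e i) * e i = d * (e i * ((∏ j, e j) / e i)) := by ring
          _ = _ := by rw [h3]
      · intro j _ hj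
        rw [Finsupp.single_eq_of_ne hj, mul_zero]
      · intro h
        exact absurd (Finset.mem_univ _) h
  have hI : initialPart (sg c e) (sw (fun _ : Fin n => 1) d e) = sg c e := by
    have h1 := CR.R2.initialPart_eq_of_split (P := sg c e) (Q := 0) hP
      (fun v hv => by simp at hv) hne
    rwa [add_zero] at h1
  refine SmcLoc.of_sqh hw ?_ hne h0
  intro p hp
  rw [hI]
  by_cases hpz : ∃ i : Fin r, p (Fin.natAdd n i) ≠ 0
  · obtain ⟨i, hi⟩ := hpz
    refine ⟨Fin.natAdd n i, ?_⟩
    rw [eval_pderiv_natAdd]
    refine mul_ne_zero ?_ (pow_ne_zero _ hi)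
    exact_mod_cast (he0 i).ne'
  · push Not at hpz
    have hp' : (fun j => p (Fin.castAdd r j)) ≠ 0 := by
      intro h5
      apply hp
      funext j
      refine Fin.addCases (fun j => congrFun h5 j) (fun i => hpz i) j
    obtain ⟨j, hj⟩ := hs _ hp'
    refine ⟨Fin.castAdd r j, ?_⟩
    rw [eval_pderiv_castAdd]
    exact hj

end SS

end MPb07157
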