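import Pool.Agent.Lib.MP_b07157_agSS.Defs
import Pool.Agent.Lib.MP_b07157_agCS.N1

/-!
# Linear changes of coordinates and suspensions
-/

noncomputable section

namespace MPb07157

open MvPolynomial

namespace SS

variable {n r : ℕ}

/-- The linear forms of a linear equivalence. -/
def C3.lf (E : (Fin n → ℂ) ≃ₗ[ℂ] (Fin n → ℂ)) (i : Fin n) : MvPolynomial (Fin n) ℂ :=
  ∑ j, C (LinearMap.toMatrix' (E : (Fin n → ℂ) →ₗ[ℂ] (Fin n → ℂ)) i j) * X j

theorem C3.eval_lf (E : (Fin n → ℂ) ≃ₗ[ℂ] (Fin n → ℂ)) (x : Fin n → ℂ) (i : Fin n) :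
    eval x (C3.lf E i) = E x i := by
  have h : (LinearMap.toMatrix' (E : (Fin n → ℂ) →ₗ[ℂ] (Fin n → ℂ))).mulVec x = E x := by
    rw [← Matrix.toLin'_apply, Matrix.toLin'_toMatrix']
    rfl
  unfold C3.lf
  rw [← h, map_sum]
  simp only [map_mul, eval_C, eval_X]
  rfl

theorem C3.eval_sub (E : (Fin n → ℂ) ≃ₗ[ℂ] (Fin n → ℂ)) (x : Fin n → ℂ)
    (g : MvPolynomial (Fin n) ℂ) : eval x (aeval (C3.lf E) g) = eval (E x) g := by
  rw [CS.N1.eval_aeval, show (fun i => eval x (C3.lf E i)) = E x from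
    _root_.funext fun i => C3.eval_lf E x i]

/-- The algebra automorphism given by a linear equivalence. -/
def C3.aut (E : (Fin n → ℂ) ≃ₗ[ℂ] (Fin n → ℂ)) :
    MvPolynomial (Fin n) ℂ ≃ₐ[ℂ] MvPolynomial (Fin n) ℂ :=
  AlgEquiv.ofAlgHom (aeval (C3.lf E)) (aeval (C3.lf E.symm))
    (by
      refine AlgHom.ext fun g => MvPolynomial.funext fun w => ?_
      rw [AlgHom.comp_apply, C3.eval_sub, C3.eval_sub, LinearEquiv.symm_apply_apply]
      rfl)
    (by
      refine AlgHom.ext fun g => MvPolynomial.funext fun w => ?_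
      rw [AlgHom.comp_apply, C3.eval_sub, C3.eval_sub, LinearEquiv.apply_symm_apply]
      rfl)

/-- The map on the old variables, the identity on the new ones. -/
def C3.ext (E : (Fin n → ℂ) ≃ₗ[ℂ] (Fin n → ℂ)) (x : Fin (n + r) → ℂ) : Fin (n + r) → ℂ :=
  Fin.append (E fun i => x (Fin.castAdd r i)) fun i => x (Fin.natAdd n i)

theorem C3.ext_castAdd (E : (Fin n → ℂ) ≃ₗ[ℂ] (Fin n → ℂ)) (x : Fin (n + r) → ℂ) (i : Fin n) :
    C3.ext E x (Fin.castAdd r i) = E (fun i => x (Fin.castAdd r i)) i := by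
  unfold C3.ext
  rw [Fin.append_left]

theorem C3.ext_natAdd (E : (Fin n → ℂ) ≃ₗ[ℂ] (Fin n → ℂ)) (x : Fin (n + r) → ℂ) (i : Fin r) :
    C3.ext E x (Fin.natAdd n i) = x (Fin.natAdd n i) := by
  unfold C3.ext
  rw [Fin.append_right]

theorem C3.ext_ext {E E' : (Fin n → ℂ) ≃ₗ[ℂ] (Fin n → ℂ)} (h : ∀ x, E (E' x) = x)
    (x : Fin (n + r) → ℂ) : C3.ext E (C3.ext E' x) = x := by
  funext i
  refine Fin.addCases (fun i => ?_) (fun i => ?_) i
  · rw [C3.ext_castAdd]
    simp only [C3.ext_castAdd]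
    exact congrFun (h fun i => x (Fin.castAdd r i)) i
  · rw [C3.ext_natAdd, C3.ext_natAdd]

/-- The linear equivalence on the old variables, the identity on the new ones. -/
def C3.extE (E : (Fin n → ℂ) ≃ₗ[ℂ] (Fin n → ℂ)) :
    (Fin (n + r) → ℂ) ≃ₗ[ℂ] (Fin (n + r) → ℂ) where
  toFun := C3.ext E
  invFun := C3.ext E.symm
  map_add' x y := by
    funext i
    refine Fin.addCases (fun i => ?_) (fun i => ?_) i
    · rw [Pi.add_apply, C3.ext_castAdd, C3.ext_castAdd, C3.ext_castAdd, ← Pi.add_apply, ← map_add]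
      rfl
    · rw [Pi.add_apply, C3.ext_natAdd, C3.ext_natAdd, C3.ext_natAdd]
      rfl
  map_smul' c x := by
    funext i
    refine Fin.addCases (fun i => ?_) (fun i => ?_) i
    · rw [RingHom.id_apply, Pi.smul_apply, C3.ext_castAdd, C3.ext_castAdd, ← Pi.smul_apply,
        ← map_smul]
      rfl
    · rw [RingHom.id_apply, Pi.smul_apply, C3.ext_natAdd, C3.ext_natAdd]
      rfl
  left_inv := C3.ext_ext E.symm_apply_apply
  right_inv := C3.ext_ext E.apply_symm_apply

/-- The linear equivalence on the old variables, the identity on the new ones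
(`Fin.append (E (x ∘ castAdd)) (x ∘ natAdd)`). -/
theorem linEq_sg {g g' : MvPolynomial (Fin n) ℂ} (h : CS.LinEq g g') (e : Fin r → ℕ) :
    CS.LinEq (sg g e) (sg g' e) := by
  obtain ⟨E, hE⟩ := h
  refine ⟨C3.extE E, fun w => ?_⟩
  show eval (C3.ext E w) (sg g e) = eval w (sg g' e)
  rw [eval_sg, eval_sg, ← hE]
  refine congrArg₂ _ ?_ (Finset.sum_congr rfl fun i _ => ?_)
  · rw [show (fun i => C3.ext E w (Fin.castAdd r i)) = E fun i => w (Fin.castAdd r i) from
      _root_.funext fun i => C3.ext_castAdd E w i]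
  · rw [C3.ext_natAdd]

/-- `SmcGlob.of_polyEquivPow` (agS/SMain) with the algebra automorphism given by the matrix of
`E.symm` (inverse: the matrix of `E`), `m = 1`, `c = 1`; identities by `MvPolynomial.funext`. Compare the
proof of `CS.LinEq.smcLoc` (agCS/N1). -/
theorem smcGlob_of_linEq {F G : MvPolynomial (Fin n) ℂ} (h : CS.LinEq F G) (hG : SmcGlob G) :
    SmcGlob F := by
  obtain ⟨e, he⟩ := h
  refine SmcGlob.of_polyEquivPow one_pos ⟨C3.aut e.symm, 1, one_ne_zero, ?_⟩ hG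
  rw [pow_one, map_one, one_mul]
  refine MvPolynomial.funext fun w => ?_
  show _ = eval w (aeval (C3.lf e.symm) G)
  rw [C3.eval_sub, ← he, e.apply_symm_apply]

end SS

end MPb07157
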