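import Pool.Agent.Lib.MP_b07157_agSS.Main
import Pool.Agent.Lib.MP_b07157_agCR.Defs

/-!
# Cubic forms without isolated points of rank zero
-/

noncomputable section

namespace MPb07157

open MvPolynomial

namespace SS

variable {r : ℕ}

/-- Different coordinates have linearly independent differentials. -/
private theorem c4_lin {n k : ℕ} {σ : Fin k → Fin n} (hσ : Function.Injective σ)
    (u : Fin k → MvPolynomial (Fin n) ℂ) (hu : ∀ j, u j = X (σ j)) (p : Fin n → ℂ) :
    LinearIndependent ℂ fun (j : Fin k) (l : Fin n) => eval p (pderiv l (u j)) := by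
  classical
  have h := (Pi.basisFun ℂ (Fin n)).linearIndependent.comp σ hσ
  have e : (fun (j : Fin k) (l : Fin n) => eval p (pderiv l (u j))) =
      (Pi.basisFun ℂ (Fin n)) ∘ σ := by
    funext j l
    rw [hu, pderiv_X, Function.comp_apply, Pi.basisFun_apply]
    by_cases hl : σ j = l
    · rw [hl, Pi.single_eq_same, Pi.single_eq_same, map_one]
    · rw [Pi.single_eq_of_ne hl, Pi.single_eq_of_ne (Ne.symm hl), map_zero]
  rw [e]
  exact h

/-- A sum of cubes of different coordinates. -/
private theorem c4_cubes {n k : ℕ} {σ : Fin k → Fin n} (hσ : Function.Injective σ)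
    {f : MvPolynomial (Fin n) ℂ} (hf : f = ∑ j, X (σ j) ^ 3) {W : Set (Fin n → ℂ)}
    (hW : ∀ p ∈ W, ∀ j, p (σ j) = 0) : SqhAlong f W (fun _ : Fin k => 1) 3 := by
  classical
  have hom : ∀ (S : Type) [CommRing S], (∑ j, X j ^ 3 : MvPolynomial (Fin k) S).IsWeightedHomogeneous
      (fun _ => 1) 3 := by
    intro S _
    refine IsWeightedHomogeneous.sum _ _ _ fun j _ => ?_
    exact (isWeightedHomogeneous_X S (fun _ : Fin k => 1) j).pow 3
  refine ⟨by norm_num, fun j => ⟨by norm_num, by norm_num⟩, 1, fun j => X (σ j),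
    ∑ j, X j ^ 3, ?_, ?_, ?_⟩
  · rw [one_mul, hf, map_sum]
    refine Finset.sum_congr rfl fun j _ => ?_
    rw [map_pow, eval_X]
  · intro v hv
    have h1 := hom (MvPolynomial (Fin n) ℂ) (mem_support_iff.1 hv)
    rw [Finsupp.weight_apply, Finsupp.sum_fintype _ _ fun _ => by simp] at h1
    refine le_of_eq (h1.symm.trans (Finset.sum_congr rfl fun j _ => ?_))
    rw [smul_eq_mul, mul_comm]
  · intro p hp
    refine ⟨by rw [map_one]; exact one_ne_zero, fun j => ?_, c4_lin hσ _ (fun _ => rfl) p, ?_⟩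
    · rw [eval_X]
      exact hW p hp j
    · intro y hy
      have h2 : map (eval p) (∑ j, X j ^ 3 : MvPolynomial (Fin k) (MvPolynomial (Fin n) ℂ)) =
          ∑ j, X j ^ 3 := by
        rw [map_sum]
        refine Finset.sum_congr rfl fun j _ => ?_
        rw [map_pow, map_X]
      obtain ⟨j, hj⟩ := Function.ne_iff.1 hy
      refine ⟨j, ?_⟩
      rw [h2, (hom ℂ).weightedHomogeneousComponent_same, map_sum, Finset.sum_eq_single j]
      · rw [Derivation.leibniz_pow, pderiv_X_self, smul_eq_mul, mul_one, nsmul_eq_mul, map_mul,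
          map_natCast, map_pow, eval_X]
        refine mul_ne_zero (by norm_num) (pow_ne_zero _ ?_)
        simpa using hj
      · intro i _ hi
        rw [Derivation.leibniz_pow, pderiv_X_of_ne hi, smul_zero, smul_zero]
      · intro h
        exact absurd (Finset.mem_univ j) h

/-- `x_0³ + x_1³` along `x_0 = x_1 = 0`: weights `(1, 1)`, `N = 3`. -/
theorem sqh_cU1 : SqhAlong (CR.cU ![1, 0, 0, 1]) {p | p 0 = 0 ∧ p 1 = 0}
    (fun _ : Fin 2 => 1) 3 := by
  refine c4_cubes (σ := ![0, 1]) (by decide) ?_ ?_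
  · simp [CR.cU, Fin.sum_univ_two]
  · rintro p ⟨h0, h1⟩ j
    fin_cases j
    · exact h0
    · exact h1

/-- `x_0³` along `x_0 = 0`: weight `1`, `N = 3`. -/
theorem sqh_cU0 : SqhAlong (CR.cU ![1, 0, 0, 0]) {p | p 0 = 0} (fun _ : Fin 1 => 1) 3 := by
  refine c4_cubes (σ := ![0]) (by decide) ?_ ?_
  · simp [CR.cU]
  · rintro p h0 j
    fin_cases j
    exact h0

/-- The zero polynomial along the whole space: no variables (`k = 0`), `N = 1`, `a = 1`. -/
theorem sqh_zero {n : ℕ} : SqhAlong (0 : MvPolynomial (Fin n) ℂ) Set.univ (Fin.elim0 : Fin 0 → ℕ) 1 := by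
  refine ⟨one_pos, fun j => j.elim0, 1, Fin.elim0, 0, by rw [mul_zero, map_zero], ?_, ?_⟩
  · intro v hv
    rw [support_zero] at hv
    exact absurd hv (Finset.notMem_empty _)
  · intro p _
    refine ⟨by rw [map_one]; exact one_ne_zero, fun j => j.elim0, linearIndependent_empty_type, ?_⟩
    intro y hy
    exact absurd (Subsingleton.elim y 0) hy

/-- `x_0² x_2 + ∑ z_i^{e_i}` along `x_0 = x_2 = z = 0`: it is `SU.susp (X_0² X_1) e` in the coordinates
`x_0, x_2, z_1, …, z_r` (`a = b = q = 1`). -/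
theorem triv_cV (e : Fin r → ℕ) :
    TrivAlong (sg CR.cV e) (zs r {p | p 0 = 0 ∧ p 2 = 0})
      (SU.susp (X 0 ^ 2 * X 1 : MvPolynomial (Fin 2) ℂ) e) := by
  classical
  have hσ : Function.Injective (Fin.append (fun j : Fin 2 => Fin.castAdd r ((![0, 2] :
      Fin 2 → Fin 3) j)) (fun i : Fin r => Fin.natAdd 3 i) : Fin (2 + r) → Fin (3 + r)) := by
    intro a b hab
    have h02 : ∀ j : Fin 2, ((![0, 2] : Fin 2 → Fin 3) j : ℕ) = 2 * (j : ℕ) := by
      intro j
      fin_cases j <;> rfl
    have hv : ∀ a : Fin (2 + r), ((Fin.append (fun j : Fin 2 => Fin.castAdd r ((![0, 2] :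
        Fin 2 → Fin 3) j)) (fun i : Fin r => Fin.natAdd 3 i) : Fin (2 + r) → Fin (3 + r)) a : ℕ) =
          if (a : ℕ) < 2 then 2 * (a : ℕ) else (a : ℕ) + 1 := by
      intro a
      refine Fin.addCases (fun j => ?_) (fun i => ?_) a
      · rw [Fin.append_left, Fin.val_castAdd, h02, Fin.val_castAdd, if_pos j.2]
      · rw [Fin.append_right, Fin.val_natAdd, Fin.val_natAdd, if_neg (by omega)]
        omega
    have h := congrArg Fin.val hab
    rw [hv, hv] at h
    apply Fin.ext
    split_ifs at h <;> omega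
  have hu : ∀ j, (Fin.append (fun j : Fin 2 => X (Fin.castAdd r ((![0, 2] : Fin 2 → Fin 3) j)))
      (fun i : Fin r => X (Fin.natAdd 3 i)) : Fin (2 + r) → MvPolynomial (Fin (3 + r)) ℂ) j =
        X ((Fin.append (fun j : Fin 2 => Fin.castAdd r ((![0, 2] : Fin 2 → Fin 3) j))
          (fun i : Fin r => Fin.natAdd 3 i) : Fin (2 + r) → Fin (3 + r)) j) := by
    intro j
    refine Fin.addCases (fun j => ?_) (fun i => ?_) j
    · rw [Fin.append_left, Fin.append_left]
    · rw [Fin.append_right, Fin.append_right]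
  refine ⟨Fin.append (fun j : Fin 2 => X (Fin.castAdd r ((![0, 2] : Fin 2 → Fin 3) j)))
    (fun i : Fin r => X (Fin.natAdd 3 i)), 1, 1, 1, ?_, ?_⟩
  · intro x _
    rw [map_one, one_mul, one_mul, eval_sg]
    unfold SU.susp CR.cV
    rw [map_add, map_sum, eval_rename, map_mul, map_pow, eval_X, eval_X, map_mul, map_pow, eval_X,
      eval_X]
    refine congrArg₂ _ ?_ (Finset.sum_congr rfl fun i _ => ?_)
    · simp only [Function.comp_apply, Fin.append_left, eval_X, div_one]
      rfl
    · rw [map_pow, eval_X, Fin.append_right, eval_X, div_one]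
  · rintro p ⟨⟨h0, h2⟩, hz⟩
    refine ⟨by rw [map_one]; exact one_ne_zero, by rw [map_one]; exact one_ne_zero,
      by rw [map_one]; exact one_ne_zero, fun j => ?_, c4_lin hσ _ hu p⟩
    refine Fin.addCases (fun j => ?_) (fun i => ?_) j
    · rw [Fin.append_left, eval_X]
      fin_cases j
      · exact h0
      · exact h2
    · rw [Fin.append_right, eval_X]
      exact hz i

/-- Germ of the previous one: `SU.smcLoc_suspP` with `E = AlgEquiv.refl`, `u = 1`, `SU.coe_susp`. -/
theorem smcLoc_susp_two (g : MvPolynomial (Fin 2) ℂ) {e : Fin r → ℕ} (he : ∀ i, 2 ≤ e i)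
    (hne : SU.susp g e ≠ 0) (h0 : coeff 0 (SU.susp g e) = 0) : SmcLoc (SU.susp g e) := by
  have hg : MvPowerSeries.constantCoeff (g : MvPowerSeries (Fin 2) ℂ) = 0 := by
    have h1 : constantCoeff (SU.susp g e) = constantCoeff g := by
      unfold SU.susp
      rw [map_add, constantCoeff_rename, map_sum, Finset.sum_eq_zero, add_zero]
      intro i _
      rw [map_pow, constantCoeff_X, zero_pow]
      have := he i
      omega
    rw [← constantCoeff_eq, h1, constantCoeff_eq] at h0
    rw [← MvPowerSeries.coeff_zero_eq_constantCoeff_apply, MvPolynomial.coeff_coe]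
    exact h0
  refine SU.smcLoc_suspP hne h0 (E := AlgEquiv.refl) (u := 1) hg he ?_
  rw [SU.coe_susp, Units.val_one, one_mul]
  rfl

end SS

end MPb07157
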