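import Pool.Agent.Lib.MP_b07157_agSS.C1
import Pool.Agent.Lib.MP_b07157_agSS.C2
import Pool.Agent.Lib.MP_b07157_agSS.C3
import Pool.Agent.Lib.MP_b07157_agSS.C4
import Pool.Agent.Lib.MP_b07157_agCR.K3
import Pool.Agent.Lib.MP_b07157_agCS.E0

/-!
# Suspensions of the polynomials of degree at most three in three variables
-/

noncomputable section

namespace MPb07157

open MvPolynomial

namespace SS

variable {r : ℕ}

/-! ### The normal forms -/

theorem linExp_cT (a b : ℂ) : CS.LinExp (CR.cT a b) := by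
  have h := CS.LinExp.of_matrix !![1, 1, 1; 3, 0, 0; 0, 3, 0] (by
    simp [Matrix.det_fin_three]) ![1, a, b]
  have e1 : CR.cT a b = ∑ i : Fin 3, C (![1, a, b] i) *
      ∏ j, X j ^ (!![1, 1, 1; 3, 0, 0; 0, 3, 0] : Matrix (Fin 3) (Fin 3) ℕ) i j := by
    unfold CR.cT
    simp [Fin.sum_univ_three, Fin.prod_univ_three]
  rw [e1]
  exact h

theorem linExp_cQ : CS.LinExp CR.cQ := by
  have h := CS.LinExp.of_matrix !![2, 0, 1; 0, 3, 0; 0, 0, 1] (by
    simp [Matrix.det_fin_three]) ![1, 1, 0]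
  have e1 : CR.cQ = ∑ i : Fin 3, C (![1, 1, 0] i) *
      ∏ j, X j ^ (!![2, 0, 1; 0, 3, 0; 0, 0, 1] : Matrix (Fin 3) (Fin 3) ℕ) i j := by
    unfold CR.cQ
    simp [Fin.sum_univ_three, Fin.prod_univ_three]
  rw [e1]
  exact h

theorem linExp_cS : CS.LinExp CR.cS := by
  have h := CS.LinExp.of_matrix !![2, 0, 1; 1, 2, 0; 0, 0, 1] (by
    simp [Matrix.det_fin_three]) ![1, 1, 0]
  have e1 : CR.cS = ∑ i : Fin 3, C (![1, 1, 0] i) *
      ∏ j, X j ^ (!![2, 0, 1; 1, 2, 0; 0, 0, 1] : Matrix (Fin 3) (Fin 3) ℕ) i j := by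
    unfold CR.cS
    simp [Fin.sum_univ_three, Fin.prod_univ_three]
  rw [e1]
  exact h

theorem linExp_cV : CS.LinExp CR.cV := by
  have h := CS.LinExp.of_matrix !![2, 0, 1; 0, 1, 0; 0, 0, 1] (by
    simp [Matrix.det_fin_three]) ![1, 0, 0]
  have e1 : CR.cV = ∑ i : Fin 3, C (![1, 0, 0] i) *
      ∏ j, X j ^ (!![2, 0, 1; 0, 1, 0; 0, 0, 1] : Matrix (Fin 3) (Fin 3) ℕ) i j := by
    unfold CR.cV
    simp [Fin.sum_univ_three, Fin.prod_univ_three]
  rw [e1]
  exact h

theorem linExp_cU (a b : ℂ) : CS.LinExp (CR.cU ![a, 0, 0, b]) := by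
  have h := CS.LinExp.of_matrix !![3, 0, 0; 0, 3, 0; 0, 0, 1] (by
    simp [Matrix.det_fin_three]) ![a, b, 0]
  have e1 : CR.cU ![a, 0, 0, b] = ∑ i : Fin 3, C (![a, b, 0] i) *
      ∏ j, X j ^ (!![3, 0, 0; 0, 3, 0; 0, 0, 1] : Matrix (Fin 3) (Fin 3) ℕ) i j := by
    unfold CR.cU
    simp [Fin.sum_univ_three, Fin.prod_univ_three]
  rw [e1]
  exact h

theorem cU_zero : CR.cU ![0, 0, 0, 0] = 0 := by
  unfold CR.cU
  simp

/-- The singular cubic forms. -/
theorem cases_cubic {c : MvPolynomial (Fin 3) ℂ} (hc : c.IsHomogeneous 3) :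
    (∀ p : Fin 3 → ℂ, p ≠ 0 → ∃ i, eval p (pderiv i c) ≠ 0) ∨
      (∃ a b, CS.LinEq c (CR.cT a b)) ∨ CS.LinEq c CR.cQ ∨ CS.LinEq c CR.cS ∨
      CS.LinEq c CR.cV ∨ CS.LinEq c (CR.cU ![1, 0, 0, 1]) ∨ CS.LinEq c (CR.cU ![1, 0, 0, 0]) ∨
      c = 0 := by
  by_cases hs : ∀ p : Fin 3 → ℂ, p ≠ 0 → ∃ i, eval p (pderiv i c) ≠ 0
  · exact Or.inl hs
  · push Not at hs
    obtain ⟨p, hp, hs⟩ := hs
    exact Or.inr (CR.singular_cubic hc hp hs)

theorem hev {m : ℕ} (f : MvPolynomial (Fin m) ℂ) : coeff 0 f = eval 0 f := by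
  rw [MB.eval_eq_constantCoeff, constantCoeff_eq, translate_zero]

theorem ne_zero_of_linEq {n : ℕ} {F G : MvPolynomial (Fin n) ℂ} (h : CS.LinEq F G) (hF : F ≠ 0) :
    G ≠ 0 := by
  rintro rfl
  obtain ⟨e, he⟩ := h
  apply hF
  refine MvPolynomial.funext fun w => ?_
  have h4 := he (e.symm w)
  rw [LinearEquiv.apply_symm_apply, map_zero] at h4
  rw [h4, map_zero]

/-- **Ternary cubic forms and their suspensions, local version.** -/
theorem smcLoc_cubic {c : MvPolynomial (Fin 3) ℂ} (hc : c.IsHomogeneous 3) {e : Fin r → ℕ}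
    (he : ∀ i, 2 ≤ e i) (hne : sg c e ≠ 0) : SmcLoc (sg c e) := by
  have he' : ∀ i, 0 < e i := fun i => by have := he i; omega
  have h00 : ∀ g : MvPolynomial (Fin 3) ℂ, g.IsHomogeneous 3 → coeff 0 (sg g e) = 0 := by
    intro g hg
    rw [coeff_zero_sg _ he']
    exact hg.coeff_eq_zero (by simp)
  have key : ∀ c' : MvPolynomial (Fin 3) ℂ, CS.LinEq c c' → CS.LinExp c' → SmcLoc (sg c e) := by
    intro c' h hl
    have h1 := linEq_sg h e
    refine h1.smcLoc ?_
    by_cases h0 : coeff 0 (sg c' e) = 0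
    · exact (linExp_sg hl he').smcLoc (ne_zero_of_linEq h1 hne) h0
    · exfalso
      apply h0
      rw [coeff_zero_sg _ he']
      obtain ⟨E, hE⟩ := h
      have h2 := hE 0
      rw [map_zero, ← hev, ← hev] at h2
      rw [← h2]
      exact hc.coeff_eq_zero (by simp)
  rcases cases_cubic hc with h | ⟨a, b, h⟩ | h | h | h | h | h | h
  · exact smcLoc_smooth_form (by norm_num) hc h he hne (h00 c hc)
  · exact key _ h (linExp_cT a b)
  · exact key _ h linExp_cQ
  · exact key _ h linExp_cS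
  · exact key _ h linExp_cV
  · exact key _ h (linExp_cU 1 1)
  · exact key _ h (linExp_cU 1 0)
  · refine key 0 (by rw [h]; exact CS.LinEq.refl 0) ?_
    rw [← cU_zero]
    exact linExp_cU 0 0

/-- **The strong monodromy conjecture, local version**, for `g(x, y, z) + ∑ u_i^{e_i}`,
`deg g ≤ 3`, `e_i ≥ 1`. -/
theorem smcLoc_three {g : MvPolynomial (Fin 3) ℂ} (hd : g.totalDegree ≤ 3) {e : Fin r → ℕ}
    (he : ∀ i, 0 < e i) (hne : sg g e ≠ 0) (h0 : coeff 0 (sg g e) = 0) : SmcLoc (sg g e) := by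
  by_cases hlin : ∃ i, coeff (Finsupp.single i 1) (sg g e) ≠ 0
  · obtain ⟨i, hi⟩ := hlin
    exact SU.smcLoc_smooth h0 hi
  push Not at hlin
  have hl : ∀ i, eval 0 (pderiv i (sg g e)) = 0 := by
    intro i
    rw [← hev, coeff_pderiv, zero_add, hlin, zero_mul]
  obtain ⟨he2, -, h1, h2⟩ := crit_sg he (by rw [← hev]; exact h0) hl
  have hz : (fun i => (0 : Fin (3 + r) → ℂ) (Fin.castAdd r i)) = 0 := rfl
  rw [hz] at h1 h2
  have hg1 : ∀ i, coeff 0 (pderiv i g) = 0 := fun i => by rw [hev]; exact h2 i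
  by_cases hH : SU.hess g = 0
  · refine smcLoc_cubic (SE3.isHomogeneous_three hd (by rw [hev]; exact h1) hg1 fun i j => ?_)
      he2 hne
    exact congrFun (congrFun hH i) j
  · refine smcLoc_susp (by norm_num) (by rw [hev]; exact h1) (fun i => ?_) ?_ he2 hne
    · have h5 := hg1 i
      rw [coeff_pderiv, zero_add] at h5
      simpa using h5
    · have := SE3.one_le_rank hH
      omega

/-! ### The global version for cubic forms -/

theorem smcGlob_of_not {n : ℕ} {g : MvPolynomial (Fin n) ℂ} {e : Fin r → ℕ}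
    (he : ∀ i, 0 < e i) (hne : sg g e ≠ 0) (h : ¬ ∀ i, 2 ≤ e i) : SmcGlob (sg g e) := by
  refine smcGlob_of_smooth hne fun p hp => ?_
  by_contra hcon
  push Not at hcon
  exact h (crit_sg he hp hcon).1

/-- Cubic forms with no critical zero of rank zero outside the origin. -/
theorem smcGlob_of_point {c : MvPolynomial (Fin 3) ℂ} {e : Fin r → ℕ}
    (he2 : ∀ i, 2 ≤ e i) (hne : sg c e ≠ 0) (hloc : SmcLoc (sg c e))
    (h : ∀ p, YG.hessAt c p = 0 → p = 0) :
    SmcGlob (sg c e) := by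
  refine SmcGlob.of_suspT (by norm_num) (fun i => by have := he2 i; omega) hne (T := {{0}})
    (Set.finite_singleton _) ?_ fun p _ _ => ?_
  · rintro W hW
    rw [Set.mem_singleton_iff.1 hW]
    refine ⟨isConstr_point 0, Or.inr ⟨0, rfl, fun h1 _ => ?_⟩⟩
    rw [translate_zero]
    exact hloc
  · by_cases hp : YG.hessAt c p = 0
    · exact Or.inl ⟨{0}, rfl, h p hp⟩
    · right
      have := SE3.one_le_rank hp
      omega

/-- Cubic forms which are semi-quasi-homogeneous along the critical zeros of rank zero. -/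
theorem smcGlob_of_sqh {c : MvPolynomial (Fin 3) ℂ} {e : Fin r → ℕ}
    (he2 : ∀ i, 2 ≤ e i) (hne : sg c e ≠ 0) {W : Set (Fin 3 → ℂ)} (hW : IsConstr W) {k : ℕ}
    {w : Fin k → ℕ} {N : ℕ} (hs : SqhAlong c W w N) (h : ∀ p, YG.hessAt c p = 0 → p ∈ W) :
    SmcGlob (sg c e) := by
  refine SmcGlob.of_suspT (by norm_num) (fun i => by have := he2 i; omega) hne (T := {W})
    (Set.finite_singleton _) ?_ fun p _ _ => ?_
  · rintro W' hW'
    rw [Set.mem_singleton_iff.1 hW']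
    exact ⟨hW, Or.inl ⟨k, w, N, hs⟩⟩
  · by_cases hp : YG.hessAt c p = 0
    · exact Or.inl ⟨W, rfl, h p hp⟩
    · right
      have := SE3.one_le_rank hp
      omega

theorem hess_entry {c : MvPolynomial (Fin 3) ℂ} {p : Fin 3 → ℂ} (h : YG.hessAt c p = 0)
    (i j : Fin 3) : eval p (pderiv i (pderiv j c)) = 0 := congrFun (congrFun h i) j

theorem pd2 (i : Fin 3) : pderiv i (2 : MvPolynomial (Fin 3) ℂ) = 0 := by
  have h := (pderiv i : Derivation ℂ (MvPolynomial (Fin 3) ℂ) _).map_natCast 2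
  exact_mod_cast h

theorem pd3 (i : Fin 3) : pderiv i (3 : MvPolynomial (Fin 3) ℂ) = 0 := by
  have h := (pderiv i : Derivation ℂ (MvPolynomial (Fin 3) ℂ) _).map_natCast 3
  exact_mod_cast h

theorem hess_cT {a b : ℂ} {p : Fin 3 → ℂ} (h : YG.hessAt (CR.cT a b) p = 0) : p = 0 := by
  have h1 := hess_entry h 0 1
  have h2 := hess_entry h 0 2
  have h3 := hess_entry h 1 2
  unfold CR.cT at h1 h2 h3
  simp [pderiv_X, Derivation.leibniz_pow, pd2, pd3] at h1 h2 h3
  funext i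
  fin_cases i
  · exact h3
  · exact h2
  · exact h1

theorem hess_cQ {p : Fin 3 → ℂ} (h : YG.hessAt CR.cQ p = 0) : p = 0 := by
  have h1 := hess_entry h 0 0
  have h2 := hess_entry h 1 1
  have h3 := hess_entry h 0 2
  unfold CR.cQ at h1 h2 h3
  simp [pderiv_X, Derivation.leibniz_pow, pd2, pd3] at h1 h2 h3
  funext i
  fin_cases i
  · exact h3
  · exact h2
  · exact h1

theorem hess_cS {p : Fin 3 → ℂ} (h : YG.hessAt CR.cS p = 0) : p = 0 := by
  have h1 := hess_entry h 0 0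
  have h2 := hess_entry h 0 1
  have h3 := hess_entry h 0 2
  unfold CR.cS at h1 h2 h3
  simp [pderiv_X, Derivation.leibniz_pow, pd2, pd3] at h1 h2 h3
  funext i
  fin_cases i
  · exact h3
  · exact h2
  · exact h1

theorem hess_cV {p : Fin 3 → ℂ} (h : YG.hessAt CR.cV p = 0) : p 0 = 0 ∧ p 2 = 0 := by
  have h1 := hess_entry h 0 0
  have h3 := hess_entry h 0 2
  unfold CR.cV at h1 h3
  simp [pderiv_X, Derivation.leibniz_pow, pd2, pd3] at h1 h3
  exact ⟨h3, h1⟩

theorem hess_cU1 {p : Fin 3 → ℂ} (h : YG.hessAt (CR.cU ![1, 0, 0, 1]) p = 0) :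
    p 0 = 0 ∧ p 1 = 0 := by
  have h1 := hess_entry h 0 0
  have h3 := hess_entry h 1 1
  unfold CR.cU at h1 h3
  simp [pderiv_X, Derivation.leibniz_pow, pd2, pd3] at h1 h3
  exact ⟨h1, h3⟩

theorem hess_cU0 {p : Fin 3 → ℂ} (h : YG.hessAt (CR.cU ![1, 0, 0, 0]) p = 0) : p 0 = 0 := by
  have h1 := hess_entry h 0 0
  unfold CR.cU at h1
  simp [pderiv_X, Derivation.leibniz_pow, pd2, pd3] at h1
  exact h1

theorem hess_smooth {c : MvPolynomial (Fin 3) ℂ} (hc : c.IsHomogeneous 3)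
    (hs : ∀ p : Fin 3 → ℂ, p ≠ 0 → ∃ i, eval p (pderiv i c) ≠ 0) {p : Fin 3 → ℂ}
    (h : YG.hessAt c p = 0) : p = 0 := by
  by_contra hp
  obtain ⟨i, hi⟩ := hs p hp
  apply hi
  have h1 := (hc.pderiv (i := i)).sum_X_mul_pderiv
  have h2 := congrArg (eval p) h1
  rw [map_sum, Finset.sum_eq_zero fun j _ => by
    rw [map_mul, hess_entry h j i, mul_zero]] at h2
  rw [nsmul_eq_mul, map_mul, map_natCast] at h2
  exact (mul_eq_zero.1 h2.symm).resolve_left (by norm_num)

theorem isConstr_01 : IsConstr {p : Fin 3 → ℂ | p 0 = 0 ∧ p 1 = 0} := by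
  have h := isConstr_setOf_and (isConstr_eq_zero (X 0 : MvPolynomial (Fin 3) ℂ))
    (isConstr_eq_zero (X 1 : MvPolynomial (Fin 3) ℂ))
  simpa only [eval_X] using h

theorem isConstr_02 : IsConstr {p : Fin 3 → ℂ | p 0 = 0 ∧ p 2 = 0} := by
  have h := isConstr_setOf_and (isConstr_eq_zero (X 0 : MvPolynomial (Fin 3) ℂ))
    (isConstr_eq_zero (X 2 : MvPolynomial (Fin 3) ℂ))
  simpa only [eval_X] using h

theorem isConstr_0 : IsConstr {p : Fin 3 → ℂ | p 0 = 0} := by
  have h := isConstr_eq_zero (X 0 : MvPolynomial (Fin 3) ℂ)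
  simpa only [eval_X] using h

/-- **Ternary cubic forms and their suspensions, global version.** -/
theorem smcGlob_cubic {c : MvPolynomial (Fin 3) ℂ} (hc : c.IsHomogeneous 3) {e : Fin r → ℕ}
    (he2 : ∀ i, 2 ≤ e i) (hne : sg c e ≠ 0) : SmcGlob (sg c e) := by
  have hloc := smcLoc_cubic hc he2 hne
  have key : ∀ c', CS.LinEq c c' → sg c' e ≠ 0 ∧ SmcLoc (sg c' e) := fun c' h =>
    ⟨ne_zero_of_linEq (linEq_sg h e) hne, (linEq_sg h e).symm.smcLoc hloc⟩
  rcases cases_cubic hc with h | ⟨a, b, h⟩ | h | h | h | h | h | h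
  · exact smcGlob_of_point he2 hne hloc fun p hp => hess_smooth hc h hp
  · exact smcGlob_of_linEq (linEq_sg h e) (smcGlob_of_point he2 (key _ h).1 (key _ h).2
      fun p hp => hess_cT hp)
  · exact smcGlob_of_linEq (linEq_sg h e) (smcGlob_of_point he2 (key _ h).1 (key _ h).2
      fun p hp => hess_cQ hp)
  · exact smcGlob_of_linEq (linEq_sg h e) (smcGlob_of_point he2 (key _ h).1 (key _ h).2
      fun p hp => hess_cS hp)
  · refine smcGlob_of_linEq (linEq_sg h e) ?_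
    have hne' := (key _ h).1
    refine SmcGlob.of_suspM (by norm_num) (fun i => by have := he2 i; omega) hne'
      (T := {zs r {p | p 0 = 0 ∧ p 2 = 0}}) (Set.finite_singleton _) ?_ fun p _ _ => ?_
    · rintro _ W hW
      rw [Set.mem_singleton_iff.1 hW]
      exact ⟨isConstr_zs isConstr_02, MonoAlong.of_trivAlong hne' (triv_cV e)
        fun h1 h2 => smcLoc_susp_two _ he2 h1 h2⟩
    · by_cases hp : YG.hessAt CR.cV p = 0
      · refine Or.inl ⟨_, rfl, ?_, fun i => ?_⟩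
        · have e1 : (fun i => (Fin.append p 0 : Fin (3 + r) → ℂ) (Fin.castAdd r i)) = p := by
            funext i
            rw [Fin.append_left]
          rw [e1]
          exact hess_cV hp
        · rw [Fin.append_right]
          rfl
      · right
        have := SE3.one_le_rank hp
        omega
  · exact smcGlob_of_linEq (linEq_sg h e) (smcGlob_of_sqh he2 (key _ h).1 isConstr_01 sqh_cU1
      fun p hp => hess_cU1 hp)
  · exact smcGlob_of_linEq (linEq_sg h e) (smcGlob_of_sqh he2 (key _ h).1 isConstr_0 sqh_cU0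
      fun p hp => hess_cU0 hp)
  · subst h
    exact smcGlob_of_sqh he2 hne IsConstr.univ sqh_zero fun p _ => Set.mem_univ p

end SS

open SS in
/-- **The strong monodromy conjecture, global version**, for all `g(x, y, z) + ∑ u_i^{e_i}`,
`deg g ≤ 3`, `e_i ≥ 1`. -/
theorem SmcGlob.of_suspThree {r : ℕ} {g : MvPolynomial (Fin 3) ℂ} (hd : g.totalDegree ≤ 3)
    {e : Fin r → ℕ} (he : ∀ i, 0 < e i) (hne : SS.sg g e ≠ 0) : SmcGlob (SS.sg g e) := by
  by_cases he2 : ∀ i, 2 ≤ e i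
  swap
  · exact smcGlob_of_not he hne he2
  by_cases hA : ∃ p, eval p g = 0 ∧ (∀ i, eval p (pderiv i g) = 0) ∧ YG.hessAt g p = 0
  · obtain ⟨p, h0, h1, h2⟩ := hA
    refine SE3.smcGlob_of_translate (Fin.append p 0) ?_
    have hne' := translate_ne_zero hne (Fin.append p 0)
    rw [translate_sg] at hne' ⊢
    refine smcGlob_cubic (SE3.isHomogeneous_three ((D5.totalDegree_translate_le p g).trans hd) ?_
      (fun i => ?_) fun i j => ?_) he2 hne'
    · rw [SE3.coeff_zero_tr, h0]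
    · rw [pderiv_translate, SE3.coeff_zero_tr, h1]
    · rw [pderiv_translate, pderiv_translate, SE3.coeff_zero_tr]
      exact congrFun (congrFun h2 i) j
  · push Not at hA
    refine SmcGlob.of_suspG (by norm_num) he hne fun p h0 h1 => ?_
    have := SE3.one_le_rank (hA p h0 h1)
    omega

/-- **The strong monodromy conjecture, local version**, for all `g(x, y, z) + ∑ u_i^{e_i}`,
`deg g ≤ 3`, `e_i ≥ 1`. -/
theorem SmcLoc.of_suspThree {r : ℕ} {g : MvPolynomial (Fin 3) ℂ} (hd : g.totalDegree ≤ 3)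
    {e : Fin r → ℕ} (he : ∀ i, 0 < e i) (hne : SS.sg g e ≠ 0) (h0 : coeff 0 (SS.sg g e) = 0) :
    SmcLoc (SS.sg g e) := SS.smcLoc_three hd he hne h0

end MPb07157
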