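import Pool.Agent.Lib.MP_b07157_agSG.ConeV
import Pool.Agent.Lib.MP_b07157_agU.Bridge
import Pool.Agent.Lib.MP_b07157_agSE.Deg3

/-!
# Suspensions, global version: definitions
-/

noncomputable section

namespace MPb07157

open MvPolynomial

namespace SS

variable {n r : ℕ}

/-- The polynomial `g(x) + ∑ z_i^{e_i}`. -/
def sg (g : MvPolynomial (Fin n) ℂ) (e : Fin r → ℕ) : MvPolynomial (Fin (n + r)) ℂ :=
  rename (Fin.castAdd r) g + ∑ i, X (Fin.natAdd n i) ^ e i

/-- The set `W × {0}`. -/
def zs (r : ℕ) (W : Set (Fin n → ℂ)) : Set (Fin (n + r) → ℂ) :=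
  {x | (fun i => x (Fin.castAdd r i)) ∈ W ∧ ∀ i : Fin r, x (Fin.natAdd n i) = 0}

theorem eval_sg (g : MvPolynomial (Fin n) ℂ) (e : Fin r → ℕ) (x : Fin (n + r) → ℂ) :
    eval x (sg g e) = eval (fun i => x (Fin.castAdd r i)) g + ∑ i, x (Fin.natAdd n i) ^ e i := by
  unfold sg
  rw [map_add, eval_rename, map_sum]
  refine congrArg₂ _ rfl (Finset.sum_congr rfl fun i _ => ?_)
  rw [map_pow, eval_X]

theorem pderiv_natAdd_rename {R : Type} [CommRing R] (g : MvPolynomial (Fin n) R) (i : Fin r) :
    pderiv (Fin.natAdd n i) (rename (Fin.castAdd r) g) = 0 := by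
  induction g using MvPolynomial.induction_on with
  | C a => rw [rename_C, pderiv_C]
  | add p q hp hq => rw [map_add, map_add, hp, hq, add_zero]
  | mul_X p k hp =>
    rw [map_mul, rename_X, Derivation.leibniz, hp, smul_zero, add_zero,
      pderiv_X_of_ne, smul_zero]
    intro h
    have := congrArg Fin.val h
    simp at this
    omega

theorem pderiv_castAdd_rename {R : Type} [CommRing R] (g : MvPolynomial (Fin n) R) (i : Fin n) :
    pderiv (Fin.castAdd r i) (rename (Fin.castAdd r) g) = rename (Fin.castAdd r) (pderiv i g) :=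
  pderiv_rename (Fin.castAdd_injective n r) i g

theorem pderiv_castAdd_pow {R : Type} [CommRing R] (e : Fin r → ℕ) (i : Fin n) :
    pderiv (Fin.castAdd r i) (∑ j, X (Fin.natAdd n j) ^ e j : MvPolynomial (Fin (n + r)) R) = 0 := by
  rw [map_sum]
  refine Finset.sum_eq_zero fun j _ => ?_
  rw [Derivation.leibniz_pow, pderiv_X_of_ne, smul_zero, smul_zero]
  intro h
  have := congrArg Fin.val h
  simp at this
  omega

theorem pderiv_natAdd_pow {R : Type} [CommRing R] (e : Fin r → ℕ) (i : Fin r) :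
    pderiv (Fin.natAdd n i) (∑ j, X (Fin.natAdd n j) ^ e j : MvPolynomial (Fin (n + r)) R) =
      (e i : MvPolynomial (Fin (n + r)) R) * X (Fin.natAdd n i) ^ (e i - 1) := by
  classical
  rw [map_sum, Finset.sum_eq_single i]
  · rw [Derivation.leibniz_pow, pderiv_X_self, smul_eq_mul, mul_one, nsmul_eq_mul]
  · intro j _ hj
    rw [Derivation.leibniz_pow, pderiv_X_of_ne, smul_zero, smul_zero]
    intro h
    apply hj
    have := congrArg Fin.val h
    simp at this
    exact Fin.ext this
  · intro h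
    exact absurd (Finset.mem_univ i) h

theorem eval_pderiv_castAdd (g : MvPolynomial (Fin n) ℂ) (e : Fin r → ℕ) (x : Fin (n + r) → ℂ)
    (i : Fin n) : eval x (pderiv (Fin.castAdd r i) (sg g e)) =
      eval (fun i => x (Fin.castAdd r i)) (pderiv i g) := by
  unfold sg
  rw [map_add, pderiv_castAdd_rename, pderiv_castAdd_pow, add_zero, eval_rename]
  rfl

theorem eval_pderiv_natAdd (g : MvPolynomial (Fin n) ℂ) (e : Fin r → ℕ) (x : Fin (n + r) → ℂ)
    (i : Fin r) : eval x (pderiv (Fin.natAdd n i) (sg g e)) =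
      (e i : ℂ) * x (Fin.natAdd n i) ^ (e i - 1) := by
  unfold sg
  rw [map_add, pderiv_natAdd_rename, pderiv_natAdd_pow, zero_add, map_mul, map_natCast, map_pow,
    eval_X]

theorem isConstr_zs {W : Set (Fin n → ℂ)} (hW : IsConstr W) : IsConstr (zs r W) := by
  have h1 : IsConstr {x : Fin (n + r) → ℂ | (fun i => x (Fin.castAdd r i)) ∈ W} := by
    have h := hW.preimage (fun i : Fin n => (X (Fin.castAdd r i) : MvPolynomial (Fin (n + r)) ℂ))
    have e : polyMap (fun i : Fin n => (X (Fin.castAdd r i) : MvPolynomial (Fin (n + r)) ℂ)) ⁻¹' W =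
        {x : Fin (n + r) → ℂ | (fun i => x (Fin.castAdd r i)) ∈ W} := by
      ext x
      unfold polyMap
      simp only [Set.mem_preimage, eval_X, Set.mem_setOf_eq]
    rwa [e] at h
  refine isConstr_setOf_and h1 ?_
  have h2 := isConstr_forall_mem (Finset.univ : Finset (Fin r))
    (fun i (x : Fin (n + r) → ℂ) => eval x (X (Fin.natAdd n i)) = 0)
    (fun i _ => isConstr_eq_zero _)
  have e : {x : Fin (n + r) → ℂ | ∀ i ∈ (Finset.univ : Finset (Fin r)),
      eval x (X (Fin.natAdd n i)) = 0} = {x | ∀ i : Fin r, x (Fin.natAdd n i) = 0} := by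
    ext x
    simp only [eval_X, Set.mem_setOf_eq, Finset.mem_univ, forall_const]
  rwa [e] at h2

/-- Translation by `(p, 0)`. -/
theorem translate_sg (g : MvPolynomial (Fin n) ℂ) (e : Fin r → ℕ) (p : Fin n → ℂ) :
    translate (Fin.append p 0) (sg g e) = sg (translate p g) e := by
  refine MvPolynomial.funext fun x => ?_
  rw [D5.eval_translate', eval_sg, eval_sg, D5.eval_translate']
  refine congrArg₂ _ ?_ (Finset.sum_congr rfl fun i _ => ?_)
  · congr 2
    funext i
    rw [Pi.add_apply, Pi.add_apply, Fin.append_left]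
  · rw [Pi.add_apply, Fin.append_right, Pi.zero_apply, add_zero]

end SS

end MPb07157
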