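import Pool.Agent.Lib.MP_b07157_agSS.Defs

/-!
# Suspensions of germs of corank at most two
-/

noncomputable section

namespace MPb07157

open MvPolynomial

namespace SS

variable {n r : ℕ}

theorem smcLoc_suspN {N s : ℕ} (hN : N = 2 + s) {f : MvPolynomial (Fin N) ℂ} (hf : f ≠ 0)
    (h0 : coeff 0 f = 0)
    {E : MvPowerSeries (Fin N) ℂ ≃ₐ[ℂ] MvPowerSeries (Fin N) ℂ} {g : PC.P2}
    (hg : MvPowerSeries.constantCoeff g = 0) {e : Fin s → ℕ} (he : ∀ i, 2 ≤ e i)
    (hfE : E (f : MvPowerSeries (Fin N) ℂ) =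
      MvPowerSeries.subst (fun j : Fin 2 => (MvPowerSeries.X (Fin.cast hN.symm (Fin.castAdd s j)) :
        MvPowerSeries (Fin N) ℂ)) g +
        ∑ i, MvPowerSeries.X (Fin.cast hN.symm (Fin.natAdd 2 i)) ^ e i) : SmcLoc f := by
  subst hN
  refine SU.smcLoc_suspP hf h0 (E := E.symm) (u := 1) hg he ?_
  rw [Units.val_one, one_mul, AlgEquiv.eq_symm_apply, hfE]
  rfl

theorem coe_sg (g : MvPolynomial (Fin n) ℂ) (e : Fin r → ℕ) :
    ((sg g e : MvPolynomial (Fin (n + r)) ℂ) : MvPowerSeries (Fin (n + r)) ℂ) =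
      ((rename (Fin.castAdd r) g : MvPolynomial (Fin (n + r)) ℂ) : MvPowerSeries (Fin (n + r)) ℂ) +
        ∑ i, MvPowerSeries.X (Fin.natAdd n i) ^ e i := by
  unfold sg
  rw [MvPolynomial.coe_add, ← MvPolynomial.coeToMvPowerSeries.ringHom_apply (∑ i, _), map_sum]
  refine congrArg₂ _ rfl (Finset.sum_congr rfl fun i _ => ?_)
  rw [MvPolynomial.coeToMvPowerSeries.ringHom_apply, MvPolynomial.coe_pow, MvPolynomial.coe_X]

/-- **Suspensions of germs of corank at most two**, critical point. -/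
theorem smcLoc_crit {r' : ℕ} {g : MvPolynomial (Fin (2 + r')) ℂ} (h0 : coeff 0 g = 0)
    (hs : ∀ i, coeff (Finsupp.single i 1) g = 0) (hH : r' ≤ (SU.hess g).rank) {e : Fin r → ℕ}
    (he : ∀ i, 2 ≤ e i) (hne : sg g e ≠ 0) (h0' : coeff 0 (sg g e) = 0) : SmcLoc (sg g e) := by
  obtain ⟨E₁, g₂, hg₂, hE₁⟩ := Spl.splitting r' (g : MvPowerSeries (Fin (2 + r')) ℂ)
    (by rw [← MvPowerSeries.coeff_zero_eq_constantCoeff_apply, MvPolynomial.coeff_coe, h0])
    (by
      funext i
      unfold Spl.Gr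
      rw [Spl.cc_pderiv, MvPolynomial.coeff_coe, hs]
      rfl)
    (by
      have h1 : Spl.Hs (g : MvPowerSeries (Fin (2 + r')) ℂ) = SU.hess g := by
        ext i j
        rw [Spl.Hs_apply, MvPowerSeries.pderiv_coe, MvPowerSeries.pderiv_coe,
          ← MvPowerSeries.coeff_zero_eq_constantCoeff_apply, MvPolynomial.coeff_coe]
        rfl
      rw [h1]
      exact hH)
  obtain ⟨E, hE1, hE2⟩ := SU.NdH.exists_ext r E₁
  have hN : 2 + r' + r = 2 + (r' + r) := by omega
  have hsub : MvPowerSeries.HasSubst (fun j : Fin 2 =>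
      (MvPowerSeries.X (Fin.cast hN.symm (Fin.castAdd (r' + r) j)) :
        MvPowerSeries (Fin (2 + r' + r)) ℂ)) :=
    MvPowerSeries.hasSubst_of_constantCoeff_zero fun _ => MvPowerSeries.constantCoeff_X _
  refine smcLoc_suspN hN hne h0' (E := E) hg₂ (e := Fin.append (fun _ => 2) e) (fun i => ?_) ?_
  · refine Fin.addCases (fun i => ?_) (fun i => ?_) i
    · rw [Fin.append_left]
    · rw [Fin.append_right]
      exact he i
  · rw [coe_sg, map_add, hE1, hE₁, map_sum, SU.Br.suspP_eq, map_add, map_sum, Fin.sum_univ_add]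
    refine (add_assoc _ _ _).trans ?_
    refine congrArg₂ _ ?_ (congrArg₂ _ (Finset.sum_congr rfl fun i _ => ?_)
      (Finset.sum_congr rfl fun i _ => ?_))
    · have h3 : (MvPowerSeries.rename (Fin.castAddEmb r : Fin (2 + r') ↪ Fin (2 + r' + r)) :
          MvPowerSeries (Fin (2 + r')) ℂ →ₐ[ℂ] MvPowerSeries (Fin (2 + r' + r)) ℂ).comp
          (MvPowerSeries.substAlgHom (SU.Br.hasSubst_castAdd r')) =
          MvPowerSeries.substAlgHom hsub := by
        apply Spl.hom_ext
        intro i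
        rw [AlgHom.comp_apply, MvPowerSeries.substAlgHom_X, MvPowerSeries.substAlgHom_X,
          MvPowerSeries.rename_X]
        congr 1
      have h4 := congrArg (fun f => f g₂) h3
      simp only [AlgHom.comp_apply] at h4
      rw [h4, MvPowerSeries.substAlgHom_apply]
    · rw [map_pow, MvPowerSeries.rename_X, Fin.append_left]
      congr 1
    · rw [map_pow, hE2, Fin.append_right]
      congr 2
      ext
      simp
      omega

end SS

end MPb07157
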