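import Pool.Agent.Lib.MP_b07157_agSF.Glob
import Pool.Agent.Lib.MP_b07157_agSE.Deg3

/-!
# The global theorems without the condition `f(0) = 0`
-/

noncomputable section

namespace MPb07157

open MvPolynomial

variable {n : ℕ}

/-- `SmcGlob.of_strataM` without the condition `f(0) = 0`. -/
theorem SmcGlob.of_strataZ {f : MvPolynomial (Fin n) ℂ} (hf : f ≠ 0)
    {T : Set (Set (Fin n → ℂ))} (hT : T.Finite) (hcov : ∀ p, eval p f = 0 → ∃ W ∈ T, p ∈ W)
    (h : ∀ W ∈ T, IsConstr W ∧ MonoAlong f W) : SmcGlob f := by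
  by_cases hz : ∃ p, eval p f = 0
  swap
  · push Not at hz
    exact SE3.smcGlob_of_ne hf hz
  obtain ⟨p, hp⟩ := hz
  intro s₀ hs hpole b hb
  by_cases hs1 : s₀ = -1
  · subst hs1
    have h0' : (0 : Fin n →₀ ℕ) ∉ (translate p f).support := by
      rw [notMem_support_iff, SE3.coeff_zero_tr, hp]
    exact neg_one_root (translate_ne_zero hf p) h0' b (form_translate p hb)
  by_contra hcon
  apply hpole
  rw [← seriesAt_univ]
  refine seriesAt_mem_of_coverM hf IsConstr.univ hT (fun p _ hp => hcov p hp)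
    (fun W hW => (h W hW).1) fun W hW V hV hVc hV0 => ?_
  by_contra hser
  exact hcon ((h W hW).2 V hV hVc hV0 s₀ hs hs1 hser b hb)

/-- `SmcGlob.of_corank` without the condition `f(0) = 0`. -/
theorem SmcGlob.of_corankZ {f : MvPolynomial (Fin n) ℂ} (hf : f ≠ 0)
    {T : Set (Set (Fin n → ℂ))} (hT : T.Finite) (hTW : ∀ W ∈ T, IsConstr W ∧ MonoAlong f W)
    (h : ∀ p, eval p f = 0 → (∀ i, eval p (pderiv i f) = 0) →
      (∃ W ∈ T, p ∈ W) ∨ n ≤ (YG.hessAt f p).rank + 2) : SmcGlob f := by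
  classical
  rcases n with _ | k
  · refine SE3.smcGlob_of_ne hf fun p hp => hf ?_
    rw [eq_C_of_isEmpty f, eval_C] at hp
    rw [eq_C_of_isEmpty f, hp, C_0]
  set I : Ideal (MvPolynomial (Fin (k + 1)) ℂ) :=
    Ideal.span (insert f (Set.range fun i => pderiv i f)) with hI
  obtain ⟨T₂, hT₂, hT₂W, hcov⟩ := CK.exists_fin_cover (fun W => IsConstr W ∧ MonoAlong f W) I
    (fun 𝔭 h𝔭 hI𝔭 => by
      have hf𝔭 : f ∈ 𝔭 := hI𝔭 (Ideal.subset_span (Set.mem_insert _ _))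
      have hs : ∀ i, pderiv i f ∈ 𝔭 := fun i =>
        hI𝔭 (Ideal.subset_span (Set.mem_insert_of_mem _ ⟨i, rfl⟩))
      have h1𝔭 : (1 : MvPolynomial (Fin (k + 1)) ℂ) ∉ 𝔭 := fun h =>
        h𝔭.ne_top ((Ideal.eq_top_iff_one _).2 h)
      have hsing : ∀ q ∈ CK.Vz 𝔭, (∃ W ∈ T, q ∈ W) ∨ k + 1 ≤ (YG.hessAt f q).rank + 2 :=
        fun q hq => h q (hq f hf𝔭) fun i => hq _ (hs i)
      by_cases hfin : (CK.Vz 𝔭).Finite
      · refine ⟨(fun p => {p}) '' CK.Vz 𝔭, hfin.image _, ?_, 1, h1𝔭, fun q hq _ =>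
          ⟨{q}, ⟨q, hq, rfl⟩, rfl⟩⟩
        rintro _ ⟨q, hq, rfl⟩
        refine ⟨isConstr_point q, ?_⟩
        rcases hsing q hq with ⟨W, hW, hqW⟩ | hr
        · exact (hTW W hW).2.mono (Set.singleton_subset_iff.2 hqW)
        · refine MonoAlong.of_point hf fun h1 h2 => SU.smcLoc_corank h1 h2 ?_
          rw [CK.hess_translate]
          exact hr
      · by_cases hex : ∃ q₀ ∈ CK.Vz 𝔭, k + 1 ≤ (YG.hessAt f q₀).rank + 2
        · obtain ⟨q₀, hq₀, hr⟩ := hex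
          obtain ⟨W, hWc, ⟨m, w, N, hWs⟩, δ, hδ, hW⟩ :=
            CK.exists_stratum h𝔭 hf𝔭 hs hfin hq₀ hr
          refine ⟨{W}, Set.finite_singleton W, ?_, δ, hδ, fun q hq hq0 => ⟨W, rfl, hW q hq hq0⟩⟩
          rintro _ rfl
          exact ⟨hWc, MonoAlong.of_sqhAlong hf hWs⟩
        · push Not at hex
          refine ⟨T, hT, hTW, 1, h1𝔭, fun q hq _ => ?_⟩
          rcases hsing q hq with hW | hr
          · exact hW
          · exact absurd hr (not_le.2 (hex q hq)))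
  refine SmcGlob.of_strataZ hf (hT₂.union (Set.finite_range (WJ f))) (fun p hp => ?_) ?_
  · by_cases hc : ∀ i, eval p (pderiv i f) = 0
    · obtain ⟨W, hW, hpW⟩ := hcov p (fun g hg => by
        have h1 : I ≤ RingHom.ker (eval p) := by
          rw [hI, Ideal.span_le]
          rintro _ (rfl | ⟨i, rfl⟩)
          · exact hp
          · exact hc i
        exact h1 hg)
      exact ⟨W, Or.inl hW, hpW⟩
    · obtain ⟨j, hj⟩ := exists_mem_WJ hp hc
      exact ⟨WJ f j, Or.inr ⟨j, rfl⟩, hj⟩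
  · rintro W (hW | ⟨j, rfl⟩)
    · exact hT₂W W hW
    · exact ⟨isConstr_WJ f j, MonoAlong.of_trivAlong hf (CQ.trivAlong_WJ f j)
        fun _ _ => SU.smcLoc_X 0⟩

end MPb07157
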