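import Pool.Agent.Lib.MP_b07157_agSS.A
import Pool.Agent.Lib.MP_b07157_agSS.B
import Pool.Agent.Lib.MP_b07157_agSS.Z

/-!
# Suspensions, global version
-/

noncomputable section

namespace MPb07157

open MvPolynomial

namespace SS

variable {n r : ℕ}

theorem coeff_zero_sg (g : MvPolynomial (Fin n) ℂ) {e : Fin r → ℕ} (he : ∀ i, 0 < e i) :
    coeff 0 (sg g e) = coeff 0 g := by
  have h1 : ∀ {m : ℕ} (f : MvPolynomial (Fin m) ℂ), coeff 0 f = eval 0 f := by
    intro m f
    rw [MB.eval_eq_constantCoeff, constantCoeff_eq, translate_zero]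
  rw [h1, h1, eval_sg, Finset.sum_eq_zero fun i _ => by
    rw [Pi.zero_apply, zero_pow (he i).ne'], add_zero]
  rfl

/-- **Suspensions of germs of corank at most two.** -/
theorem smcLoc_susp (hn : 2 ≤ n) {g : MvPolynomial (Fin n) ℂ} (h0 : coeff 0 g = 0)
    (hs : ∀ i, coeff (Finsupp.single i 1) g = 0) (hH : n ≤ (SU.hess g).rank + 2) {e : Fin r → ℕ}
    (he : ∀ i, 2 ≤ e i) (hne : sg g e ≠ 0) : SmcLoc (sg g e) := by
  obtain ⟨r', rfl⟩ : ∃ r', n = 2 + r' := ⟨n - 2, by omega⟩
  exact smcLoc_crit h0 hs (by omega) he hne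
    (by rw [coeff_zero_sg g fun i => by have := he i; omega, h0])

/-- A polynomial without critical zeros. -/
theorem smcGlob_of_smooth {f : MvPolynomial (Fin n) ℂ} (hf : f ≠ 0)
    (h : ∀ p, eval p f = 0 → ∃ i, eval p (pderiv i f) ≠ 0) : SmcGlob f := by
  by_cases hz : ∃ p, eval p f = 0
  · obtain ⟨p, hp⟩ := hz
    refine SE3.smcGlob_of_translate p (SmcGlob.of_corank (translate_ne_zero hf p)
      (by rw [SE3.coeff_zero_tr, hp]) (T := ∅) Set.finite_empty
      (fun _ hW => absurd hW (Set.notMem_empty _)) fun q hq hc => ?_)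
    exfalso
    rw [D5.eval_translate'] at hq
    obtain ⟨i, hi⟩ := h _ hq
    apply hi
    rw [← SE3.eval_pderiv_translate]
    exact hc i
  · push Not at hz
    exact SE3.smcGlob_of_ne hf hz

/-- The critical points of `sg g e`. -/
theorem crit_sg {g : MvPolynomial (Fin n) ℂ} {e : Fin r → ℕ} (he : ∀ i, 0 < e i)
    {x : Fin (n + r) → ℂ} (hx : eval x (sg g e) = 0)
    (hc : ∀ i, eval x (pderiv i (sg g e)) = 0) :
    (∀ i, 2 ≤ e i) ∧ (∀ i, x (Fin.natAdd n i) = 0) ∧
      eval (fun i => x (Fin.castAdd r i)) g = 0 ∧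
      ∀ i, eval (fun i => x (Fin.castAdd r i)) (pderiv i g) = 0 := by
  have h1 : ∀ i, 2 ≤ e i ∧ x (Fin.natAdd n i) = 0 := by
    intro i
    have h2 := hc (Fin.natAdd n i)
    rw [eval_pderiv_natAdd] at h2
    have h3 : (e i : ℂ) ≠ 0 := by exact_mod_cast (he i).ne'
    have h4 := (mul_eq_zero.1 h2).resolve_left h3
    have h5 : 2 ≤ e i := by
      by_contra hcon
      have : e i = 1 := by have := he i; omega
      rw [this] at h4
      simp at h4
    exact ⟨h5, pow_eq_zero_iff (by omega) |>.1 h4⟩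
  refine ⟨fun i => (h1 i).1, fun i => (h1 i).2, ?_, fun i => ?_⟩
  · rw [eval_sg, Finset.sum_eq_zero fun i _ => by rw [(h1 i).2, zero_pow (he i).ne'],
      add_zero] at hx
    exact hx
  · rw [← eval_pderiv_castAdd g e x i]
    exact hc _

theorem zs_singleton (x : Fin n → ℂ) : zs r {x} = {Fin.append x 0} := by
  ext y
  constructor
  · rintro ⟨h1, h2⟩
    rw [Set.mem_singleton_iff] at h1 ⊢
    funext j
    refine Fin.addCases (fun j => ?_) (fun i => ?_) j
    · rw [Fin.append_left, ← h1]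
    · rw [Fin.append_right, h2 i]
      rfl
  · intro h
    rw [Set.mem_singleton_iff] at h
    subst h
    refine ⟨?_, fun i => ?_⟩
    · rw [Set.mem_singleton_iff]
      funext i
      rw [Fin.append_left]
    · rw [Fin.append_right]
      rfl

end SS

open SS in
/-- **The strong monodromy conjecture, global version**, for `f = g(x) + ∑ z_i^{e_i}`, `e_i ≥ 1`, where
the critical zeros of `g` are covered by finitely many sets along which the conjecture is known for `f`
and points at which the Hessian matrix of `g` has rank at least `n - 2`. -/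
theorem SmcGlob.of_suspM {n r : ℕ} (hn : 2 ≤ n) {g : MvPolynomial (Fin n) ℂ} {e : Fin r → ℕ}
    (he : ∀ i, 0 < e i) (hne : SS.sg g e ≠ 0) {T : Set (Set (Fin (n + r) → ℂ))} (hT : T.Finite)
    (hTW : (∀ i, 2 ≤ e i) → ∀ W ∈ T, IsConstr W ∧ MonoAlong (SS.sg g e) W)
    (h : ∀ p, eval p g = 0 → (∀ i, eval p (pderiv i g) = 0) →
      (∃ W ∈ T, (Fin.append p 0 : Fin (n + r) → ℂ) ∈ W) ∨ n ≤ (YG.hessAt g p).rank + 2) :
    SmcGlob (SS.sg g e) := by
  classical
  by_cases hcr : ∃ P, eval P (sg g e) = 0 ∧ ∀ i, eval P (pderiv i (sg g e)) = 0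
  swap
  · push Not at hcr
    exact smcGlob_of_smooth hne fun p hp => hcr p hp
  obtain ⟨P, hP, hPc⟩ := hcr
  obtain ⟨he2, -, -, -⟩ := crit_sg he hP hPc
  obtain ⟨T₂, hT₂, hTW₂, hcov⟩ := CC.exists_cover_corank' g
  have hev : ∀ {m : ℕ} (f : MvPolynomial (Fin m) ℂ), coeff 0 f = eval 0 f := by
    intro m f
    rw [MB.eval_eq_constantCoeff, constantCoeff_eq, translate_zero]
  have hpt : ∀ x, eval x g = 0 → (∀ i, eval x (pderiv i g) = 0) →
      n ≤ (YG.hessAt g x).rank + 2 → sg (translate x g) e ≠ 0 →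
        SmcLoc (sg (translate x g) e) := by
    intro x h1 h2 h3 h4
    refine smcLoc_susp hn (by rw [SE3.coeff_zero_tr, h1]) (fun i => ?_)
      (by rw [CK.hess_translate]; exact h3) he2 h4
    have h5 := h2 i
    rw [← SE3.coeff_zero_tr, ← pderiv_translate, coeff_pderiv, zero_add] at h5
    simpa using h5
  have hsm : ∀ x, coeff 0 (sg (translate x g) e) = 0 →
      ¬ (∀ i, eval x (pderiv i g) = 0) → SmcLoc (sg (translate x g) e) := by
    intro x h0 h1
    push Not at h1
    obtain ⟨i, hi⟩ := h1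
    refine SU.smcLoc_smooth h0 (i := Fin.castAdd r i) ?_
    have h2 : eval 0 (pderiv (Fin.castAdd r i) (sg (translate x g) e)) ≠ 0 := by
      rw [eval_pderiv_castAdd]
      have h4 : (fun i => (0 : Fin (n + r) → ℂ) (Fin.castAdd r i)) = 0 := rfl
      rw [h4, pderiv_translate, D5.eval_translate', zero_add]
      exact hi
    rw [← hev, coeff_pderiv, zero_add] at h2
    exact left_ne_zero_of_mul h2
  have key : ∀ W ∈ T₂, IsConstr (zs r W) ∧ MonoAlong (sg g e) (zs r W) := by
    intro W hW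
    refine ⟨isConstr_zs (hTW₂ W hW).1, ?_⟩
    rcases (hTW₂ W hW).2 with ⟨k, w, N, hs⟩ | ⟨x, rfl, -⟩
    · exact MonoAlong.of_sqhAlong hne (sqhAlong_susp hs he2)
    · rw [zs_singleton]
      by_cases hx : ∃ W ∈ T, (Fin.append x 0 : Fin (n + r) → ℂ) ∈ W
      · obtain ⟨W, hW, hxW⟩ := hx
        exact (hTW he2 W hW).2.mono (Set.singleton_subset_iff.2 hxW)
      · refine MonoAlong.of_point hne fun h1 h2 => ?_
        rw [translate_sg] at h1 h2 ⊢
        by_cases hcr : ∀ i, eval x (pderiv i g) = 0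
        · have hx0 : eval x g = 0 := by
            rw [coeff_zero_sg _ he, SE3.coeff_zero_tr] at h2
            exact h2
          exact hpt x hx0 hcr ((h x hx0 hcr).resolve_left hx) h1
        · exact hsm x h2 hcr
  refine SmcGlob.of_corankZ hne (T := T ∪ zs r '' T₂) (hT.union (hT₂.image _)) ?_
    fun q hq hqc => Or.inl ?_
  · rintro W (hW | ⟨W', hW', rfl⟩)
    · exact hTW he2 W hW
    · exact key W' hW'
  · obtain ⟨-, hz, h1, h2⟩ := crit_sg he hq hqc
    have hq' : q = Fin.append (fun i => q (Fin.castAdd r i)) 0 := by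
      funext j
      refine Fin.addCases (fun j => ?_) (fun i => ?_) j
      · rw [Fin.append_left]
      · rw [Fin.append_right, hz i]
        rfl
    rcases h _ h1 h2 with ⟨W, hW, hqW⟩ | hr
    · exact ⟨W, Or.inl hW, by rw [hq']; exact hqW⟩
    · obtain ⟨W, hW, hqW⟩ := hcov _ h1 h2 hr
      exact ⟨zs r W, Or.inr ⟨W, hW, rfl⟩, hqW, hz⟩

open SS in
/-- **The strong monodromy conjecture, global version**, for `f = g(x) + ∑ z_i^{e_i}`, `e_i ≥ 1`, where
the critical zeros of `g` are covered by finitely many sets along which `g` is semi-quasi-homogeneous,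
finitely many points `x` for which the local version is known for `g(x + ·) + ∑ z_i^{e_i}`, and points
at which the Hessian matrix of `g` has rank at least `n - 2`. -/
theorem SmcGlob.of_suspT {n r : ℕ} (hn : 2 ≤ n) {g : MvPolynomial (Fin n) ℂ} {e : Fin r → ℕ}
    (he : ∀ i, 0 < e i) (hne : SS.sg g e ≠ 0) {T : Set (Set (Fin n → ℂ))} (hT : T.Finite)
    (hTW : ∀ W ∈ T, IsConstr W ∧ ((∃ (k : ℕ) (w : Fin k → ℕ) (N : ℕ), SqhAlong g W w N) ∨
      ∃ x, W = {x} ∧ (SS.sg (translate x g) e ≠ 0 → coeff 0 (SS.sg (translate x g) e) = 0 →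
        SmcLoc (SS.sg (translate x g) e))))
    (h : ∀ p, eval p g = 0 → (∀ i, eval p (pderiv i g) = 0) →
      (∃ W ∈ T, p ∈ W) ∨ n ≤ (YG.hessAt g p).rank + 2) : SmcGlob (SS.sg g e) := by
  refine SmcGlob.of_suspM hn he hne (T := zs r '' T) (hT.image _) ?_ fun p h1 h2 => ?_
  · rintro he2 _ ⟨W, hW, rfl⟩
    refine ⟨isConstr_zs (hTW W hW).1, ?_⟩
    rcases (hTW W hW).2 with ⟨k, w, N, hs⟩ | ⟨x, rfl, hx⟩
    · exact MonoAlong.of_sqhAlong hne (sqhAlong_susp hs he2)
    · rw [zs_singleton]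
      refine MonoAlong.of_point hne fun h1 h2 => ?_
      rw [translate_sg] at h1 h2 ⊢
      exact hx h1 h2
  · rcases h p h1 h2 with ⟨W, hW, hpW⟩ | hr
    · refine Or.inl ⟨zs r W, ⟨W, hW, rfl⟩, ?_, fun i => ?_⟩
      · have e1 : (fun i => (Fin.append p 0 : Fin (n + r) → ℂ) (Fin.castAdd r i)) = p := by
          funext i
          rw [Fin.append_left]
        rw [e1]
        exact hpW
      · rw [Fin.append_right]
        rfl
    · exact Or.inr hr

/-- **The strong monodromy conjecture, global version**, for `f = g(x) + ∑ z_i^{e_i}`, `e_i ≥ 1`, where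
the Hessian matrix of `g` has rank at least `n - 2` at the critical zeros of `g` (no condition if
`n = 2`). -/
theorem SmcGlob.of_suspG {n r : ℕ} (hn : 2 ≤ n) {g : MvPolynomial (Fin n) ℂ} {e : Fin r → ℕ}
    (he : ∀ i, 0 < e i) (hne : SS.sg g e ≠ 0)
    (h : ∀ p, eval p g = 0 → (∀ i, eval p (pderiv i g) = 0) →
      n ≤ (YG.hessAt g p).rank + 2) : SmcGlob (SS.sg g e) :=
  SmcGlob.of_suspT hn he hne (T := ∅) Set.finite_empty (fun _ hW => absurd hW (Set.notMem_empty _))
    fun p h1 h2 => Or.inr (h p h1 h2)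

/-- **All plane curve polynomials and their suspensions, global version.** -/
theorem SmcGlob.of_suspTwo {r : ℕ} {g : MvPolynomial (Fin 2) ℂ} {e : Fin r → ℕ}
    (he : ∀ i, 0 < e i) (hne : SS.sg g e ≠ 0) : SmcGlob (SS.sg g e) :=
  SmcGlob.of_suspG le_rfl he hne fun _ _ _ => by omega

end MPb07157
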