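import Pool.Agent.Lib.MP_b07157_agSS.Defs

/-!
# Suspensions of semi-quasi-homogeneous strata
-/

noncomputable section

namespace MPb07157

open MvPolynomial

namespace SS

variable {n r k : ℕ}

/-- The weights of the suspension. -/
def sw (w : Fin k → ℕ) (N : ℕ) (e : Fin r → ℕ) : Fin (k + r) → ℕ :=
  Fin.append (fun j => w j * ∏ i, e i) fun i => N * ((∏ j, e j) / e i)

theorem weight_mapDomain (w : Fin k → ℕ) (N : ℕ) (e : Fin r → ℕ) (v : Fin k →₀ ℕ) :
    ∑ j, sw w N e j * (v.mapDomain (Fin.castAdd r)) j = (∏ i, e i) * ∑ j, w j * v j := by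
  rw [Fin.sum_univ_add, Finset.mul_sum]
  have h1 : ∀ j : Fin r, (v.mapDomain (Fin.castAdd r)) (Fin.natAdd k j) = 0 := by
    intro j
    refine Finsupp.mapDomain_notin_range _ _ ?_
    rintro ⟨i, hi⟩
    have := congrArg Fin.val hi
    simp at this
    omega
  rw [Finset.sum_eq_zero (s := (Finset.univ : Finset (Fin r))) fun j _ => by rw [h1, mul_zero],
    add_zero]
  refine Finset.sum_congr rfl fun j _ => ?_
  rw [Finsupp.mapDomain_apply (Fin.castAdd_injective k r)]
  unfold sw
  rw [Fin.append_left]
  ring

theorem whc_rename (w : Fin k → ℕ) (N : ℕ) (e : Fin r → ℕ) (he : ∀ i, 0 < e i)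
    (P : MvPolynomial (Fin k) ℂ) :
    weightedHomogeneousComponent (sw w N e) (N * ∏ i, e i) (rename (Fin.castAdd r) P) =
      rename (Fin.castAdd r) (weightedHomogeneousComponent w N P) := by
  classical
  have hL : 0 < ∏ i, e i := Finset.prod_pos fun i _ => he i
  ext v
  rw [coeff_weightedHomogeneousComponent]
  by_cases hv : ∃ u : Fin k →₀ ℕ, u.mapDomain (Fin.castAdd r) = v
  · obtain ⟨u, rfl⟩ := hv
    rw [coeff_rename_mapDomain _ (Fin.castAdd_injective k r),
      coeff_rename_mapDomain _ (Fin.castAdd_injective k r), coeff_weightedHomogeneousComponent]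
    have h1 : Finsupp.weight (sw w N e) (u.mapDomain (Fin.castAdd r)) =
        (∏ i, e i) * ∑ j, w j * u j := by
      rw [← weight_mapDomain w N e u, Finsupp.weight_apply, Finsupp.sum_fintype _ _ fun _ => by simp]
      refine Finset.sum_congr rfl fun j _ => ?_
      rw [smul_eq_mul, mul_comm]
    have h2 : Finsupp.weight w u = ∑ j, w j * u j := by
      rw [Finsupp.weight_apply, Finsupp.sum_fintype _ _ fun _ => by simp]
      refine Finset.sum_congr rfl fun j _ => ?_
      rw [smul_eq_mul, mul_comm]
    rw [h1, h2]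
    have h3 : (∏ i, e i) * ∑ j, w j * u j = N * ∏ i, e i ↔ ∑ j, w j * u j = N := by
      rw [mul_comm N]
      exact Nat.mul_right_inj hL.ne'
    simp only [h3]
  · push Not at hv
    rw [coeff_rename_eq_zero _ _ _ (fun u hu => absurd hu (hv u)),
      coeff_rename_eq_zero _ _ _ (fun u hu => absurd hu (hv u)), ite_self]

theorem whc_pow (w : Fin k → ℕ) (N : ℕ) (e : Fin r → ℕ) (he : ∀ i, 0 < e i) (c : ℂ) :
    weightedHomogeneousComponent (sw w N e) (N * ∏ i, e i)
      (C c * ∑ i, X (Fin.natAdd k i) ^ e i : MvPolynomial (Fin (k + r)) ℂ) =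
      C c * ∑ i, X (Fin.natAdd k i) ^ e i := by
  have h : (C c * ∑ i, X (Fin.natAdd k i) ^ e i :
      MvPolynomial (Fin (k + r)) ℂ).IsWeightedHomogeneous (sw w N e) (N * ∏ i, e i) := by
    rw [← zero_add (N * ∏ i, e i)]
    refine (isWeightedHomogeneous_C _ c).mul (IsWeightedHomogeneous.sum _ _ _ fun i _ => ?_)
    have h1 := (isWeightedHomogeneous_X ℂ (sw w N e) (Fin.natAdd k i)).pow (e i)
    have h2 : e i • sw w N e (Fin.natAdd k i) = N * ∏ i, e i := by
      unfold sw
      rw [Fin.append_right, smul_eq_mul]
      have h3 : e i * ((∏ j, e j) / e i) = ∏ j, e j :=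
        Nat.mul_div_cancel' (Finset.dvd_prod_of_mem e (Finset.mem_univ i))
      calc e i * (N * ((∏ j, e j) / e i)) = N * (e i * ((∏ j, e j) / e i)) := by ring
        _ = _ := by rw [h3]
    rw [h2] at h1
    exact h1
  exact h.weightedHomogeneousComponent_same

/-- **The suspension of a stratum.** -/
theorem sqhAlong_susp {g : MvPolynomial (Fin n) ℂ} {W : Set (Fin n → ℂ)} {w : Fin k → ℕ} {N : ℕ}
    (h : SqhAlong g W w N) {e : Fin r → ℕ} (he : ∀ i, 2 ≤ e i) :
    SqhAlong (sg g e) (zs r W) (sw w N e) (N * ∏ i, e i) := by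
  classical
  obtain ⟨hN, hw, a, u, G, haG, hsup, hW⟩ := h
  have he0 : ∀ i, 0 < e i := fun i => by have := he i; omega
  have hL : 0 < ∏ i, e i := Finset.prod_pos fun i _ => he0 i
  have hdiv : ∀ i, e i * ((∏ j, e j) / e i) = ∏ j, e j := fun i =>
    Nat.mul_div_cancel' (Finset.dvd_prod_of_mem e (Finset.mem_univ i))
  refine ⟨Nat.mul_pos hN hL, ?_, rename (Fin.castAdd r) a,
    Fin.append (fun j => rename (Fin.castAdd r) (u j)) (fun i => X (Fin.natAdd n i)),
    rename (Fin.castAdd r) (map (rename (Fin.castAdd r) : MvPolynomial (Fin n) ℂ →ₐ[ℂ]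
      MvPolynomial (Fin (n + r)) ℂ).toRingHom G) +
      C (rename (Fin.castAdd r) a) * ∑ i, X (Fin.natAdd k i) ^ e i, ?_, ?_, ?_⟩
  · intro j
    refine Fin.addCases (fun j => ?_) (fun i => ?_) j
    · unfold sw
      rw [Fin.append_left]
      exact ⟨Nat.mul_pos (hw j).1 hL, Nat.mul_lt_mul_of_pos_right (hw j).2 hL⟩
    · unfold sw
      rw [Fin.append_right]
      have h1 := hdiv i
      have h2 := he i
      have h3 : 0 < (∏ j, e j) / e i := by
        rcases Nat.eq_zero_or_pos ((∏ j, e j) / e i) with h | h
        · rw [h, mul_zero] at h1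
          omega
        · exact h
      refine ⟨Nat.mul_pos hN h3, Nat.mul_lt_mul_of_pos_left ?_ hN⟩
      nlinarith
  · rw [map_add, map_mul, eval_C, eval_rename, map_sum]
    have h1 : eval ((Fin.append (fun j => rename (Fin.castAdd r) (u j))
        (fun i => X (Fin.natAdd n i)) : Fin (k + r) → MvPolynomial (Fin (n + r)) ℂ) ∘
          Fin.castAdd r) (map (rename (Fin.castAdd r) : MvPolynomial (Fin n) ℂ →ₐ[ℂ]
      MvPolynomial (Fin (n + r)) ℂ).toRingHom G) = rename (Fin.castAdd r) (eval u G) := by
      rw [eval_map]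
      have h2 := eval₂_comp_left (rename (Fin.castAdd r) : MvPolynomial (Fin n) ℂ →ₐ[ℂ]
        MvPolynomial (Fin (n + r)) ℂ).toRingHom (RingHom.id _) u G
      have h3 : eval₂ (RingHom.id (MvPolynomial (Fin n) ℂ)) u G = eval u G := rfl
      rw [h3] at h2
      refine Eq.trans ?_ h2.symm
      congr 1
      funext j
      simp only [Function.comp_apply, Fin.append_left]
      rfl
    rw [h1, ← haG, map_mul]
    unfold sg
    rw [mul_add]
    refine congrArg₂ _ rfl (congrArg₂ _ rfl (Finset.sum_congr rfl fun i _ => ?_))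
    rw [map_pow, eval_X, Fin.append_right]
  · intro v hv
    rcases Finset.mem_union.1 (support_add hv) with h1 | h1
    · rw [support_rename_of_injective (Fin.castAdd_injective k r), Finset.mem_image] at h1
      obtain ⟨v', hv', rfl⟩ := h1
      rw [weight_mapDomain, mul_comm N]
      exact Nat.mul_le_mul_left _ (hsup v' (support_map_subset _ _ hv'))
    · rw [mem_support_iff, coeff_C_mul, coeff_sum] at h1
      obtain ⟨i, _, hi⟩ := Finset.exists_ne_zero_of_sum_ne_zero (right_ne_zero_of_mul h1)
      rw [coeff_X_pow] at hi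
      have hvi : Finsupp.single (Fin.natAdd k i) (e i) = v := by
        by_contra hne
        rw [if_neg hne] at hi
        exact hi rfl
      rw [← hvi, Finset.sum_eq_single (Fin.natAdd k i)]
      · rw [Finsupp.single_eq_same]
        unfold sw
        rw [Fin.append_right]
        have h3 := hdiv i
        calc N * ∏ i, e i = N * (e i * ((∏ j, e j) / e i)) := by rw [h3]
          _ ≤ _ := le_of_eq (by ring)
      · intro j _ hj
        rw [Finsupp.single_eq_of_ne hj, mul_zero]
      · intro h
        exact absurd (Finset.mem_univ _) h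
  · rintro p ⟨hpW, hp0⟩
    obtain ⟨h1, h2, h3, h4⟩ := hW _ hpW
    refine ⟨?_, ?_, ?_, ?_⟩
    · rw [eval_rename]
      exact h1
    · intro j
      refine Fin.addCases (fun j => ?_) (fun i => ?_) j
      · rw [Fin.append_left, eval_rename]
        exact h2 j
      · rw [Fin.append_right, eval_X]
        exact hp0 i
    · rw [Fintype.linearIndependent_iff] at h3 ⊢
      intro b hb
      have hz : ∀ i, b (Fin.natAdd k i) = 0 := by
        intro i
        have h5 := congrFun hb (Fin.natAdd n i)
        rw [Finset.sum_apply, Fin.sum_univ_add] at h5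
        simp only [Pi.smul_apply, smul_eq_mul, Pi.zero_apply, Fin.append_left, Fin.append_right,
          pderiv_natAdd_rename, map_zero, mul_zero, Finset.sum_const_zero, zero_add] at h5
        rw [Finset.sum_eq_single i] at h5
        · rw [pderiv_X_self, map_one, mul_one] at h5
          exact h5
        · intro j _ hj
          rw [pderiv_X_of_ne, map_zero, mul_zero]
          intro h6
          apply hj
          have := congrArg Fin.val h6
          simp at this
          exact Fin.ext this
        · intro h
          exact absurd (Finset.mem_univ _) h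
      have hz' : ∀ j, b (Fin.castAdd r j) = 0 := by
        refine h3 (fun j => b (Fin.castAdd r j)) ?_
        funext l
        have h5 := congrFun hb (Fin.castAdd r l)
        rw [Finset.sum_apply, Fin.sum_univ_add] at h5
        simp only [Pi.smul_apply, smul_eq_mul, Pi.zero_apply, Fin.append_left, Fin.append_right,
          hz, zero_mul, Finset.sum_const_zero, add_zero, pderiv_castAdd_rename] at h5
        rw [Finset.sum_apply]
        simp only [Pi.smul_apply, smul_eq_mul, Pi.zero_apply]
        rw [← h5]
        refine Finset.sum_congr rfl fun j _ => ?_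
        rw [eval_rename]
        rfl
      intro j
      refine Fin.addCases (fun j => hz' j) (fun i => hz i) j
    · intro y hy
      have hc : ((eval p).comp (rename (Fin.castAdd r) : MvPolynomial (Fin n) ℂ →ₐ[ℂ]
          MvPolynomial (Fin (n + r)) ℂ).toRingHom) = eval fun i => p (Fin.castAdd r i) := by
        refine MvPolynomial.ringHom_ext (fun c => ?_) fun i => ?_
        · rw [RingHom.comp_apply, eval_C]
          change eval p (rename _ (C c)) = c
          rw [rename_C, eval_C]
        · rw [RingHom.comp_apply, eval_X]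
          change eval p (rename _ (X i)) = _
          rw [rename_X, eval_X]
      have hl : weightedHomogeneousComponent (sw w N e) (N * ∏ i, e i)
          (map (eval p) (rename (Fin.castAdd r) (map (rename (Fin.castAdd r) :
            MvPolynomial (Fin n) ℂ →ₐ[ℂ] MvPolynomial (Fin (n + r)) ℂ).toRingHom G) +
      C (rename (Fin.castAdd r) a) * ∑ i, X (Fin.natAdd k i) ^ e i)) =
        rename (Fin.castAdd r) (weightedHomogeneousComponent w N
          (map (eval fun i => p (Fin.castAdd r i)) G)) +
          C (eval (fun i => p (Fin.castAdd r i)) a) * ∑ i, X (Fin.natAdd k i) ^ e i := by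
        rw [map_add, map_mul, map_C, map_sum, map_rename, map_map, hc, map_add, whc_rename _ _ _ he0]
        have h5 : (∑ i, map (eval p) (X (Fin.natAdd k i) ^ e i) : MvPolynomial (Fin (k + r)) ℂ) =
            ∑ i, X (Fin.natAdd k i) ^ e i :=
          Finset.sum_congr rfl fun i _ => by rw [map_pow, map_X]
        rw [h5, whc_pow _ _ _ he0, eval_rename]
        rfl
      rw [hl]
      by_cases hyz : ∃ i : Fin r, y (Fin.natAdd k i) ≠ 0
      · obtain ⟨i, hi⟩ := hyz
        refine ⟨Fin.natAdd k i, ?_⟩
        rw [map_add, pderiv_natAdd_rename, zero_add, Derivation.leibniz, pderiv_C, smul_zero,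
          add_zero, pderiv_natAdd_pow, smul_eq_mul, map_mul, map_mul, eval_C, map_natCast,
          map_pow, eval_X]
        refine mul_ne_zero h1 (mul_ne_zero ?_ (pow_ne_zero _ hi))
        exact_mod_cast (he0 i).ne'
      · push Not at hyz
        have hy' : (fun j => y (Fin.castAdd r j)) ≠ 0 := by
          intro h5
          apply hy
          funext j
          refine Fin.addCases (fun j => congrFun h5 j) (fun i => hyz i) j
        obtain ⟨j, hj⟩ := h4 _ hy'
        refine ⟨Fin.castAdd r j, ?_⟩
        rw [map_add, pderiv_castAdd_rename, Derivation.leibniz, pderiv_C, smul_zero,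
          pderiv_castAdd_pow, smul_zero, add_zero, add_zero, eval_rename]
        exact hj

end SS

end MPb07157
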