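import Pool.Agent.Lib.MP_b07157_agSS.Defs
import Pool.Agent.Lib.MP_b07157_agCS.N0

/-!
# Suspensions of polynomials with linearly independent exponents
-/

noncomputable section

namespace MPb07157

open MvPolynomial

namespace SS

variable {n r : ℕ}

private theorem C1_family {g : MvPolynomial (Fin n) ℂ} (hg : CS.LinExp g) {e : Fin r → ℕ}
    (he : ∀ i, 0 < e i) : LinearIndependent ℂ (fun a : g.support ⊕ Fin r =>
      (Sum.elim (fun v : g.support => Fin.append (fun i : Fin n => ((v : Fin n →₀ ℕ) i : ℂ)) 0)
        (fun i : Fin r => Pi.single (Fin.natAdd n i) (e i : ℂ)) a : Fin (n + r) → ℂ)) := by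
  classical
  have hg' : LinearIndependent ℂ fun (v : g.support) (i : Fin n) => ((v : Fin n →₀ ℕ) i : ℂ) := hg
  rw [Fintype.linearIndependent_iff] at hg' ⊢
  intro c hc
  rw [Fintype.sum_sum_type] at hc
  have h1 : ∀ i : Fin r, c (Sum.inr i) = 0 := by
    intro i
    have h := congrFun hc (Fin.natAdd n i)
    simp only [Sum.elim_inl, Sum.elim_inr, Pi.add_apply, Finset.sum_apply, Pi.smul_apply,
      Fin.append_right, Pi.zero_apply, smul_eq_mul, mul_zero, Finset.sum_const_zero, zero_add] at h
    rw [Finset.sum_eq_single i] at h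
    · rw [Pi.single_eq_same] at h
      exact (mul_eq_zero.1 h).resolve_right (Nat.cast_ne_zero.2 (he i).ne')
    · intro j _ hj
      rw [Pi.single_eq_of_ne, mul_zero]
      intro h'
      apply hj
      have := congrArg Fin.val h'
      simp at this
      exact Fin.ext this.symm
    · intro h'
      exact absurd (Finset.mem_univ i) h'
  have h2 : ∀ v : g.support, c (Sum.inl v) = 0 := by
    refine hg' (fun v => c (Sum.inl v)) ?_
    funext l
    have h := congrFun hc (Fin.castAdd r l)
    simp only [Sum.elim_inl, Sum.elim_inr, Pi.add_apply, Finset.sum_apply, Pi.smul_apply,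
      Fin.append_left, Pi.zero_apply, smul_eq_mul, h1, zero_mul, Finset.sum_const_zero,
      add_zero] at h
    simp only [Finset.sum_apply, Pi.smul_apply, smul_eq_mul, Pi.zero_apply]
    exact h
  rintro (v | i)
  · exact h2 v
  · exact h1 i

private theorem C1_exists {g : MvPolynomial (Fin n) ℂ} {e : Fin r → ℕ}
    (w : (sg g e).support) : ∃ a : g.support ⊕ Fin r,
      (Sum.elim (fun v : g.support => Fin.append (fun i : Fin n => ((v : Fin n →₀ ℕ) i : ℂ)) 0)
        (fun i : Fin r => Pi.single (Fin.natAdd n i) (e i : ℂ)) a : Fin (n + r) → ℂ) =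
      fun i : Fin (n + r) => ((w : Fin (n + r) →₀ ℕ) i : ℂ) := by
  classical
  obtain ⟨w, hw⟩ := w
  have h1 := MvPolynomial.support_add hw
  rcases Finset.mem_union.1 h1 with h2 | h2
  · rw [MvPolynomial.support_rename_of_injective (Fin.castAdd_injective n r)] at h2
    obtain ⟨v, hv, rfl⟩ := Finset.mem_image.1 h2
    refine ⟨Sum.inl ⟨v, hv⟩, ?_⟩
    funext j
    refine Fin.addCases (fun l => ?_) (fun l => ?_) j
    · rw [Sum.elim_inl, Fin.append_left, Finsupp.mapDomain_apply (Fin.castAdd_injective n r)]
    · rw [Sum.elim_inl, Fin.append_right, Pi.zero_apply, Finsupp.mapDomain_of_notMem_range,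
        Nat.cast_zero]
      rintro ⟨i, hi⟩
      have := congrArg Fin.val hi
      simp at this
      omega
  · have h3 := MvPolynomial.support_sum h2
    obtain ⟨i, -, hi⟩ := Finset.mem_biUnion.1 h3
    rw [MvPolynomial.support_X_pow, Finset.mem_singleton] at hi
    subst hi
    refine ⟨Sum.inr i, ?_⟩
    funext j
    rw [Sum.elim_inr, Finsupp.single_apply, Pi.single_apply]
    by_cases h : j = Fin.natAdd n i
    · rw [if_pos h, if_pos h.symm]
    · rw [if_neg h, if_neg (fun h' => h h'.symm), Nat.cast_zero]

/-- The exponents of `sg g e` are those of `g` (with zeros added) and `e_i` times the unit vectors of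
the new variables. Use `Fintype.linearIndependent_iff`; the coordinate `Fin.natAdd n i` gives the
coefficient of the exponent `e_i` zero, then use the coordinates `Fin.castAdd r l` and the hypothesis. -/
theorem linExp_sg {g : MvPolynomial (Fin n) ℂ} (hg : CS.LinExp g) {e : Fin r → ℕ}
    (he : ∀ i, 0 < e i) : CS.LinExp (sg g e) := by
  classical
  choose ι hι using fun w : (sg g e).support => C1_exists w
  have hinj : Function.Injective ι := by
    intro w w' hww
    have h1 := (hι w).symm.trans ((congrArg _ hww).trans (hι w'))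
    refine Subtype.ext (Finsupp.ext fun i => ?_)
    exact Nat.cast_injective (congrFun h1 i)
  have h2 := (C1_family hg he).comp ι hinj
  have h3 : (fun (w : (sg g e).support) (i : Fin (n + r)) => ((w : Fin (n + r) →₀ ℕ) i : ℂ)) =
      (fun a : g.support ⊕ Fin r =>
      (Sum.elim (fun v : g.support => Fin.append (fun i : Fin n => ((v : Fin n →₀ ℕ) i : ℂ)) 0)
        (fun i : Fin r => Pi.single (Fin.natAdd n i) (e i : ℂ)) a : Fin (n + r) → ℂ)) ∘ ι := by
    funext w
    exact (hι w).symm
  unfold CS.LinExp
  rw [h3]
  exact h2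

end SS

end MPb07157
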